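import Pool.Agent.MP_75ef89_co.Ex.C.Mk
import Pool.Agent.MP_75ef89_co.Ex.C.W3
import Pool.Agent.MP_75ef89_co.Ex.C.W4
import Pool.Agent.MP_75ef89_co.Ex.C.W5
import Pool.Agent.MP_75ef89_co.Ex.C.W6

/-! The weight tables pass their checks. -/

namespace Pool.Agent.MP_75ef89_co.Ex

theorem tab3 : TabChk 3 0 0 w3 wT3 gs3 := by
  decide +kernel
theorem tab3a : TabChk 3 0 17 w3 wT3 gs3a :=
  tab3.of_gs (by decide +kernel)
theorem okph3 : PhiChk 3 0 32 ph3 := by
  decide +kernel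
theorem tab4 : TabChk 4 0 0 w4 wT4 gs4 := by
  decide +kernel
theorem tab4a : TabChk 4 0 18 w4 wT4 gs4a :=
  tab4.of_gs (by decide +kernel)
theorem okph4 : PhiChk 4 0 32 ph4 := by
  decide +kernel
theorem tab5 : TabChk 5 0 0 w5 wT5 gs5 := by
  decide +kernel
theorem okph5 : PhiChk 5 0 32 ph5 := by
  decide +kernel
theorem tab6 : TabChk 6 0 0 w6 wT6 gs6 := by
  decide +kernel
theorem okph6 : PhiChk 6 0 32 ph6 := by
  decide +kernel

end Pool.Agent.MP_75ef89_co.Ex
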