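import Pool.Agent.MP_75ef89_co.Ex.C.Mk
import Pool.Agent.MP_75ef89_co.Ex.C.WF3
import Pool.Agent.MP_75ef89_co.Ex.C.WF4
import Pool.Agent.MP_75ef89_co.Ex.C.WF8
import Pool.Agent.MP_75ef89_co.Ex.C.WF10
import Pool.Agent.MP_75ef89_co.Ex.C.WF11

/-! The weight tables pass their checks. -/

namespace Pool.Agent.MP_75ef89_co.Ex

theorem tabF3 : TabChk 3 3 0 wF3 wTF3 gsF3 := by
  decide +kernel
theorem okphF3_1 : PhiChk 3 3 1 phF3_1 := by
  decide +kernel
theorem tabF4 : TabChk 4 4 0 wF4 wTF4 gsF4 := by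
  decide +kernel
theorem okphF4_1 : PhiChk 4 4 2 phF4_1 := by
  decide +kernel
theorem tabF8 : TabChk 1 8 0 wF8 wTF8 gsF8 := by
  decide +kernel
theorem okphF8_1 : PhiChk 1 8 6 phF8_1 := by
  decide +kernel
theorem okphF8_2 : PhiChk 1 8 5 phF8_2 := by
  decide +kernel
theorem okphF8_3 : PhiChk 1 8 4 phF8_3 := by
  decide +kernel
theorem tabF10 : TabChk 3 10 0 wF10 wTF10 gsF10 := by
  decide +kernel
theorem okphF10_1 : PhiChk 3 10 8 phF10_1 := by
  decide +kernel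
theorem okphF10_2 : PhiChk 3 10 7 phF10_2 := by
  decide +kernel
theorem okphF10_3 : PhiChk 3 10 6 phF10_3 := by
  decide +kernel
theorem okphF10_4 : PhiChk 3 10 5 phF10_4 := by
  decide +kernel
theorem tabF11 : TabChk 4 11 0 wF11 wTF11 gsF11 := by
  decide +kernel
theorem okphF11_1 : PhiChk 4 11 9 phF11_1 := by
  decide +kernel
theorem okphF11_2 : PhiChk 4 11 8 phF11_2 := by
  decide +kernel
theorem okphF11_3 : PhiChk 4 11 7 phF11_3 := by
  decide +kernel
theorem okphF11_4 : PhiChk 4 11 6 phF11_4 := by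
  decide +kernel
theorem okphF11_5 : PhiChk 4 11 5 phF11_5 := by
  decide +kernel

end Pool.Agent.MP_75ef89_co.Ex
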