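import Pool.Agent.MP_75ef89_co.Ex.C.TabA
import Pool.Agent.MP_75ef89_co.Ex.C.TabB
import Pool.Agent.MP_75ef89_co.Ex.C.TabF
import Pool.Agent.MP_75ef89_co.Ex.C.PA4_4_1
import Pool.Agent.MP_75ef89_co.Ex.C.S1
import Pool.Agent.MP_75ef89_co.Ex.C.PT4_1_0
import Pool.Agent.MP_75ef89_co.Ex.C.PA4_2_2
import Pool.Agent.MP_75ef89_co.Ex.C.PA4_3_6
import Pool.Agent.MP_75ef89_co.Ex.C.PA4_2_0
import Pool.Agent.MP_75ef89_co.Ex.C.PA4_2_1
import Pool.Agent.MP_75ef89_co.Ex.C.PA4_3_2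

/-! All trees have been checked. -/

namespace Pool.Agent.MP_75ef89_co.Ex

theorem treeA1_1 : Tree 1 (nmin 1) (tgv 1 1000) (sigf 1 1000 6) (rootD 1) :=
  mkTree 1 tab1a okph1 cA1_1_0 (by decide +kernel)
theorem treeA1_2 : Tree 1 (nmin 1) (tgv 1 1000) (sigf 1 1000 6) (rootD 2) :=
  mkTree 417 tab1a okph1 cA1_2_0 (by decide +kernel)
theorem treeA1_3 : Tree 1 (nmin 1) (tgv 1 1000) (sigf 1 1000 6) (rootD 3) :=
  mkTree 12147 tab1a okph1 ((cA1_3_0.trans cA1_3_4044).trans cA1_3_7914) (by decide +kernel)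
theorem treeA1_4 : Tree 1 (nmin 1) (tgv 1 1000) (sigf 1 1000 6) (rootD 4) :=
  mkTree 1187 tab1a okph1 cA1_4_0 (by decide +kernel)
theorem treeA1_5 : Tree 1 (nmin 1) (tgv 1 1000) (sigf 1 1000 6) (rootD 5) :=
  mkTree 1 tab1a okph1 cA1_5_0 (by decide +kernel)
theorem treeA2_1 : Tree 2 (nmin 2) (tgv 2 1000) (sigf 2 1000 6) (rootD 1) :=
  mkTree 1 tab2 okph2 cA2_1_0 (by decide +kernel)
theorem treeA2_2 : Tree 2 (nmin 2) (tgv 2 1000) (sigf 2 1000 6) (rootD 2) :=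
  mkTree 3 tab2 okph2 cA2_2_0 (by decide +kernel)
theorem treeA2_3 : Tree 2 (nmin 2) (tgv 2 1000) (sigf 2 1000 6) (rootD 3) :=
  mkTree 8 tab2 okph2 cA2_3_0 (by decide +kernel)
theorem treeA2_4 : Tree 2 (nmin 2) (tgv 2 1000) (sigf 2 1000 6) (rootD 4) :=
  mkTree 1 tab2 okph2 cA2_4_0 (by decide +kernel)
theorem treeA2_5 : Tree 2 (nmin 2) (tgv 2 1000) (sigf 2 1000 6) (rootD 5) :=
  mkTree 1 tab2 okph2 cA2_5_0 (by decide +kernel)
theorem treeA3_2 : Tree 3 (nmin 3) (tgv 3 1000) (sigf 3 1000 6) (rootD 2) :=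
  mkTree 79 tab3a okph3 cA3_2_0 (by decide +kernel)
theorem treeA3_3 : Tree 3 (nmin 3) (tgv 3 1000) (sigf 3 1000 6) (rootD 3) :=
  mkTree 104 tab3a okph3 cA3_3_0 (by decide +kernel)
theorem treeA3_4 : Tree 3 (nmin 3) (tgv 3 1000) (sigf 3 1000 6) (rootD 4) :=
  mkTree 2 tab3a okph3 cA3_4_0 (by decide +kernel)
theorem treeA3_5 : Tree 3 (nmin 3) (tgv 3 1000) (sigf 3 1000 6) (rootD 5) :=
  mkTree 1 tab3a okph3 cA3_5_0 (by decide +kernel)
theorem treeA4_1 : Tree 4 (nmin 4) (tgv 4 1000) (sigf 4 1000 6) (rootD 1) :=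
  mkTree 5 tab4a okph4 cA4_1_0 (by decide +kernel)
theorem treeA4_2 : Tree 4 (nmin 4) (tgv 4 1000) (sigf 4 1000 6) (rootD 2) :=
  mkTree 11100 tab4a okph4 ((cA4_2_0.trans cA4_2_4298).trans cA4_2_7057) (by decide +kernel)
theorem treeA4_3 : Tree 4 (nmin 4) (tgv 4 1000) (sigf 4 1000 6) (rootD 3) :=
  mkTree 49229 tab4a okph4 (((((((((((((cA4_3_0.trans cA4_3_4706).trans cA4_3_9295).trans cA4_3_13143).trans cA4_3_16409).trans cA4_3_20053).trans cA4_3_23883).trans cA4_3_26985).trans cA4_3_30101).trans cA4_3_34103).trans cA4_3_37471).trans cA4_3_40458).trans cA4_3_43347).trans cA4_3_46272) (by decide +kernel)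
theorem treeA4_4 : Tree 4 (nmin 4) (tgv 4 1000) (sigf 4 1000 6) (rootD 4) :=
  mkTree 4125 tab4a okph4 (cA4_4_0.trans cA4_4_2375) (by decide +kernel)
theorem treeA4_5 : Tree 4 (nmin 4) (tgv 4 1000) (sigf 4 1000 6) (rootD 5) :=
  mkTree 1 tab4a okph4 cA4_5_0 (by decide +kernel)
theorem treeB0_1 : Tree 0 0 (tgv 0 (cB1 0)) 0 (rootD 1) :=
  mkTree 8 tab0 okph0 cB0_1_0 (by decide +kernel)
theorem treeB0_2 : Tree 0 0 (tgv 0 (cB2 0)) (sigf 0 (cB2 0) 6) (rootD 2) :=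
  mkTree 359 tab0 okph0 cB0_2_0 (by decide +kernel)
theorem treeB3_1 : Tree 3 0 (tgv 3 (cB1 3)) 0 (rootD 1) :=
  mkTree 1 tab3 okph3 cB3_1_0 (by decide +kernel)
theorem treeB6_1 : Tree 6 0 (tgv 6 (cB1 6)) 0 (rootD 1) :=
  mkTree 11 tab6 okph6 cB6_1_0 (by decide +kernel)
theorem treeF10_1 : TreeF 10 1 :=
  mkTreeF 1 tabF10 okphF10_1 cF10_1_0 (by decide +kernel)
theorem treeF10_2 : TreeF 10 2 :=
  mkTreeF 10 tabF10 okphF10_2 cF10_2_0 (by decide +kernel)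
theorem treeF10_3 : TreeF 10 3 :=
  mkTreeF 110 tabF10 okphF10_3 cF10_3_0 (by decide +kernel)
theorem treeF10_4 : TreeF 10 4 :=
  mkTreeF 1 tabF10 okphF10_4 cF10_4_0 (by decide +kernel)
theorem treeF11_1 : TreeF 11 1 :=
  mkTreeF 6 tabF11 okphF11_1 cF11_1_0 (by decide +kernel)
theorem treeF11_2 : TreeF 11 2 :=
  mkTreeF 118 tabF11 okphF11_2 cF11_2_0 (by decide +kernel)
theorem treeF11_3 : TreeF 11 3 :=
  mkTreeF 2980 tabF11 okphF11_3 cF11_3_0 (by decide +kernel)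
theorem treeF11_4 : TreeF 11 4 :=
  mkTreeF 1 tabF11 okphF11_4 cF11_4_0 (by decide +kernel)
theorem treeF11_5 : TreeF 11 5 :=
  mkTreeF 1 tabF11 okphF11_5 cF11_5_0 (by decide +kernel)
theorem treeF3_1 : TreeF 3 1 :=
  mkTreeF 1 tabF3 okphF3_1 cF3_1_0 (by decide +kernel)
theorem treeF4_1 : TreeF 4 1 :=
  mkTreeF 1 tabF4 okphF4_1 cF4_1_0 (by decide +kernel)
theorem treeF8_1 : TreeF 8 1 :=
  mkTreeF 1 tabF8 okphF8_1 cF8_1_0 (by decide +kernel)
theorem treeF8_2 : TreeF 8 2 :=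
  mkTreeF 24 tabF8 okphF8_2 cF8_2_0 (by decide +kernel)
theorem treeF8_3 : TreeF 8 3 :=
  mkTreeF 1 tabF8 okphF8_3 cF8_3_0 (by decide +kernel)
theorem treeK1_0 : Tree 1 0 (tgv 1 (cK 1 0)) 0 (rootK (cdK 1 0)) :=
  mkTree 1 tab1 okph1 cK1_0_0 (by decide +kernel)
theorem treeK2_0 : Tree 2 0 (tgv 2 (cK 2 0)) 0 (rootK (cdK 2 0)) :=
  mkTree 268 tab2 okph2 cK2_0_0 (by decide +kernel)
theorem treeK3_0 : Tree 3 0 (tgv 3 (cK 3 0)) 0 (rootK (cdK 3 0)) :=
  mkTree 281 tab3 okph3 cK3_0_0 (by decide +kernel)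
theorem treeK3_1 : Tree 3 0 (tgv 3 (cK 3 1)) 0 (rootK (cdK 3 1)) :=
  mkTree 284 tab3 okph3 cK3_1_0 (by decide +kernel)
theorem treeK4_0 : Tree 4 0 (tgv 4 (cK 4 0)) 0 (rootK (cdK 4 0)) :=
  mkTree 1 tab4 okph4 cK4_0_0 (by decide +kernel)
theorem treeK5_0 : Tree 5 0 (tgv 5 (cK 5 0)) 0 (rootK (cdK 5 0)) :=
  mkTree 1 tab5 okph5 cK5_0_0 (by decide +kernel)
theorem treeN0_3 : TreeN 0 3 :=
  mkTreeN 165 0x11100789100289201004c91000 4084101000 tab0 okph0 cN0_3_1 (by decide +kernel) (by decide +kernel)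
theorem treeN0_4 : TreeN 0 4 :=
  mkTreeN 144 0 4084101000 tab0 okph0 cN0_4_0 (by decide +kernel) (by decide +kernel)
theorem treeN0_5 : TreeN 0 5 :=
  mkTreeN 1 0 4084101000 tab0 okph0 cN0_5_0 (by decide +kernel) (by decide +kernel)
theorem treeN5_1 : TreeN 5 1 :=
  mkTreeN 7 0x1051001c9101001e900 28588707000 tab5 okph5 cN5_1_1 (by decide +kernel) (by decide +kernel)
theorem treeN5_2 : TreeN 5 2 :=
  mkTreeN 615 0x11003f9 28588707000 tab5 okph5 cN5_2_1 (by decide +kernel) (by decide +kernel)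
theorem treeN5_3 : TreeN 5 3 :=
  mkTreeN 654 0x11007f9 28588707000 tab5 okph5 cN5_3_1 (by decide +kernel) (by decide +kernel)
theorem treeN5_4 : TreeN 5 4 :=
  mkTreeN 383 0 28588707000 tab5 okph5 cN5_4_0 (by decide +kernel) (by decide +kernel)
theorem treeN5_5 : TreeN 5 5 :=
  mkTreeN 1 0 28588707000 tab5 okph5 cN5_5_0 (by decide +kernel) (by decide +kernel)
theorem treeN6_2 : TreeN 6 2 :=
  mkTreeN 252 0x1053510030930201003c9101003c91002491000 49009212000 tab6 okph6 cN6_2_1 (by decide +kernel) (by decide +kernel)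
theorem treeN6_3 : TreeN 6 3 :=
  mkTreeN 200 0x11007f9 49009212000 tab6 okph6 cN6_3_1 (by decide +kernel) (by decide +kernel)
theorem treeN6_4 : TreeN 6 4 :=
  mkTreeN 11 0 49009212000 tab6 okph6 cN6_4_0 (by decide +kernel) (by decide +kernel)
theorem treeN6_5 : TreeN 6 5 :=
  mkTreeN 2 0 49009212000 tab6 okph6 cN6_5_0 (by decide +kernel) (by decide +kernel)
theorem treeT0_1 : Tree 0 0 (tgv 0 (cT 0 1)) (sigf 0 (cT 0 1) (1 - 1))
    (rootT 1 (dT 0 1) (decide (sigf 0 (cT 0 1) (1 - 1) = 1 - 1))) :=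
  mkTree 22 tab0 okph0 cT0_1_0 (by decide +kernel)
theorem treeT0_2 : Tree 0 0 (tgv 0 (cT 0 2)) (sigf 0 (cT 0 2) (2 - 1))
    (rootT 2 (dT 0 2) (decide (sigf 0 (cT 0 2) (2 - 1) = 2 - 1))) :=
  mkTree 1 tab0 okph0 cT0_2_0 (by decide +kernel)
theorem treeT0_3 : Tree 0 0 (tgv 0 (cT 0 3)) (sigf 0 (cT 0 3) (3 - 1))
    (rootT 3 (dT 0 3) (decide (sigf 0 (cT 0 3) (3 - 1) = 3 - 1))) :=
  mkTree 10 tab0 okph0 cT0_3_0 (by decide +kernel)
theorem treeT0_4 : Tree 0 0 (tgv 0 (cT 0 4)) (sigf 0 (cT 0 4) (4 - 1))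
    (rootT 4 (dT 0 4) (decide (sigf 0 (cT 0 4) (4 - 1) = 4 - 1))) :=
  mkTree 16 tab0 okph0 cT0_4_0 (by decide +kernel)
theorem treeT0_5 : Tree 0 0 (tgv 0 (cT 0 5)) (sigf 0 (cT 0 5) (5 - 1))
    (rootT 5 (dT 0 5) (decide (sigf 0 (cT 0 5) (5 - 1) = 5 - 1))) :=
  mkTree 19 tab0 okph0 cT0_5_0 (by decide +kernel)
theorem treeT0_6 : Tree 0 0 (tgv 0 (cT 0 6)) (sigf 0 (cT 0 6) (6 - 1))
    (rootT 6 (dT 0 6) (decide (sigf 0 (cT 0 6) (6 - 1) = 6 - 1))) :=
  mkTree 47 tab0 okph0 cT0_6_0 (by decide +kernel)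
theorem treeT1_1 : Tree 1 0 (tgv 1 (cT 1 1)) (sigf 1 (cT 1 1) (1 - 1))
    (rootT 1 (dT 1 1) (decide (sigf 1 (cT 1 1) (1 - 1) = 1 - 1))) :=
  mkTree 44 tab1 okph1 cT1_1_0 (by decide +kernel)
theorem treeT1_2 : Tree 1 0 (tgv 1 (cT 1 2)) (sigf 1 (cT 1 2) (2 - 1))
    (rootT 2 (dT 1 2) (decide (sigf 1 (cT 1 2) (2 - 1) = 2 - 1))) :=
  mkTree 1 tab1 okph1 cT1_2_0 (by decide +kernel)
theorem treeT1_3 : Tree 1 0 (tgv 1 (cT 1 3)) (sigf 1 (cT 1 3) (3 - 1))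
    (rootT 3 (dT 1 3) (decide (sigf 1 (cT 1 3) (3 - 1) = 3 - 1))) :=
  mkTree 3 tab1 okph1 cT1_3_0 (by decide +kernel)
theorem treeT1_4 : Tree 1 0 (tgv 1 (cT 1 4)) (sigf 1 (cT 1 4) (4 - 1))
    (rootT 4 (dT 1 4) (decide (sigf 1 (cT 1 4) (4 - 1) = 4 - 1))) :=
  mkTree 8 tab1 okph1 cT1_4_0 (by decide +kernel)
theorem treeT1_5 : Tree 1 0 (tgv 1 (cT 1 5)) (sigf 1 (cT 1 5) (5 - 1))
    (rootT 5 (dT 1 5) (decide (sigf 1 (cT 1 5) (5 - 1) = 5 - 1))) :=
  mkTree 18 tab1 okph1 cT1_5_0 (by decide +kernel)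
theorem treeT1_6 : Tree 1 0 (tgv 1 (cT 1 6)) (sigf 1 (cT 1 6) (6 - 1))
    (rootT 6 (dT 1 6) (decide (sigf 1 (cT 1 6) (6 - 1) = 6 - 1))) :=
  mkTree 1 tab1 okph1 cT1_6_0 (by decide +kernel)
theorem treeT2_1 : Tree 2 0 (tgv 2 (cT 2 1)) (sigf 2 (cT 2 1) (1 - 1))
    (rootT 1 (dT 2 1) (decide (sigf 2 (cT 2 1) (1 - 1) = 1 - 1))) :=
  mkTree 1 tab2 okph2 cT2_1_0 (by decide +kernel)
theorem treeT2_2 : Tree 2 0 (tgv 2 (cT 2 2)) (sigf 2 (cT 2 2) (2 - 1))
    (rootT 2 (dT 2 2) (decide (sigf 2 (cT 2 2) (2 - 1) = 2 - 1))) :=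
  mkTree 1 tab2 okph2 cT2_2_0 (by decide +kernel)
theorem treeT2_3 : Tree 2 0 (tgv 2 (cT 2 3)) (sigf 2 (cT 2 3) (3 - 1))
    (rootT 3 (dT 2 3) (decide (sigf 2 (cT 2 3) (3 - 1) = 3 - 1))) :=
  mkTree 1 tab2 okph2 cT2_3_0 (by decide +kernel)
theorem treeT2_4 : Tree 2 0 (tgv 2 (cT 2 4)) (sigf 2 (cT 2 4) (4 - 1))
    (rootT 4 (dT 2 4) (decide (sigf 2 (cT 2 4) (4 - 1) = 4 - 1))) :=
  mkTree 11 tab2 okph2 cT2_4_0 (by decide +kernel)
theorem treeT2_5 : Tree 2 0 (tgv 2 (cT 2 5)) (sigf 2 (cT 2 5) (5 - 1))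
    (rootT 5 (dT 2 5) (decide (sigf 2 (cT 2 5) (5 - 1) = 5 - 1))) :=
  mkTree 29 tab2 okph2 cT2_5_0 (by decide +kernel)
theorem treeT2_6 : Tree 2 0 (tgv 2 (cT 2 6)) (sigf 2 (cT 2 6) (6 - 1))
    (rootT 6 (dT 2 6) (decide (sigf 2 (cT 2 6) (6 - 1) = 6 - 1))) :=
  mkTree 1 tab2 okph2 cT2_6_0 (by decide +kernel)
theorem treeT3_1 : Tree 3 0 (tgv 3 (cT 3 1)) (sigf 3 (cT 3 1) (1 - 1))
    (rootT 1 (dT 3 1) (decide (sigf 3 (cT 3 1) (1 - 1) = 1 - 1))) :=
  mkTree 1 tab3 okph3 cT3_1_0 (by decide +kernel)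
theorem treeT3_2 : Tree 3 0 (tgv 3 (cT 3 2)) (sigf 3 (cT 3 2) (2 - 1))
    (rootT 2 (dT 3 2) (decide (sigf 3 (cT 3 2) (2 - 1) = 2 - 1))) :=
  mkTree 1 tab3 okph3 cT3_2_0 (by decide +kernel)
theorem treeT3_3 : Tree 3 0 (tgv 3 (cT 3 3)) (sigf 3 (cT 3 3) (3 - 1))
    (rootT 3 (dT 3 3) (decide (sigf 3 (cT 3 3) (3 - 1) = 3 - 1))) :=
  mkTree 1 tab3 okph3 cT3_3_0 (by decide +kernel)
theorem treeT3_4 : Tree 3 0 (tgv 3 (cT 3 4)) (sigf 3 (cT 3 4) (4 - 1))
    (rootT 4 (dT 3 4) (decide (sigf 3 (cT 3 4) (4 - 1) = 4 - 1))) :=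
  mkTree 19 tab3 okph3 cT3_4_0 (by decide +kernel)
theorem treeT3_5 : Tree 3 0 (tgv 3 (cT 3 5)) (sigf 3 (cT 3 5) (5 - 1))
    (rootT 5 (dT 3 5) (decide (sigf 3 (cT 3 5) (5 - 1) = 5 - 1))) :=
  mkTree 17 tab3 okph3 cT3_5_0 (by decide +kernel)
theorem treeT3_6 : Tree 3 0 (tgv 3 (cT 3 6)) (sigf 3 (cT 3 6) (6 - 1))
    (rootT 6 (dT 3 6) (decide (sigf 3 (cT 3 6) (6 - 1) = 6 - 1))) :=
  mkTree 20 tab3 okph3 cT3_6_0 (by decide +kernel)
theorem treeT4_1 : Tree 4 0 (tgv 4 (cT 4 1)) (sigf 4 (cT 4 1) (1 - 1))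
    (rootT 1 (dT 4 1) (decide (sigf 4 (cT 4 1) (1 - 1) = 1 - 1))) :=
  mkTree 3473 tab4 okph4 cT4_1_0 (by decide +kernel)
theorem treeT4_2 : Tree 4 0 (tgv 4 (cT 4 2)) (sigf 4 (cT 4 2) (2 - 1))
    (rootT 2 (dT 4 2) (decide (sigf 4 (cT 4 2) (2 - 1) = 2 - 1))) :=
  mkTree 2 tab4 okph4 cT4_2_0 (by decide +kernel)
theorem treeT4_3 : Tree 4 0 (tgv 4 (cT 4 3)) (sigf 4 (cT 4 3) (3 - 1))
    (rootT 3 (dT 4 3) (decide (sigf 4 (cT 4 3) (3 - 1) = 3 - 1))) :=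
  mkTree 6 tab4 okph4 cT4_3_0 (by decide +kernel)
theorem treeT4_4 : Tree 4 0 (tgv 4 (cT 4 4)) (sigf 4 (cT 4 4) (4 - 1))
    (rootT 4 (dT 4 4) (decide (sigf 4 (cT 4 4) (4 - 1) = 4 - 1))) :=
  mkTree 5 tab4 okph4 cT4_4_0 (by decide +kernel)
theorem treeT4_5 : Tree 4 0 (tgv 4 (cT 4 5)) (sigf 4 (cT 4 5) (5 - 1))
    (rootT 5 (dT 4 5) (decide (sigf 4 (cT 4 5) (5 - 1) = 5 - 1))) :=
  mkTree 1 tab4 okph4 cT4_5_0 (by decide +kernel)
theorem treeT4_6 : Tree 4 0 (tgv 4 (cT 4 6)) (sigf 4 (cT 4 6) (6 - 1))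
    (rootT 6 (dT 4 6) (decide (sigf 4 (cT 4 6) (6 - 1) = 6 - 1))) :=
  mkTree 1 tab4 okph4 cT4_6_0 (by decide +kernel)
theorem treeT5_1 : Tree 5 0 (tgv 5 (cT 5 1)) (sigf 5 (cT 5 1) (1 - 1))
    (rootT 1 (dT 5 1) (decide (sigf 5 (cT 5 1) (1 - 1) = 1 - 1))) :=
  mkTree 1 tab5 okph5 cT5_1_0 (by decide +kernel)
theorem treeT5_2 : Tree 5 0 (tgv 5 (cT 5 2)) (sigf 5 (cT 5 2) (2 - 1))
    (rootT 2 (dT 5 2) (decide (sigf 5 (cT 5 2) (2 - 1) = 2 - 1))) :=
  mkTree 1 tab5 okph5 cT5_2_0 (by decide +kernel)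
theorem treeT5_3 : Tree 5 0 (tgv 5 (cT 5 3)) (sigf 5 (cT 5 3) (3 - 1))
    (rootT 3 (dT 5 3) (decide (sigf 5 (cT 5 3) (3 - 1) = 3 - 1))) :=
  mkTree 3 tab5 okph5 cT5_3_0 (by decide +kernel)
theorem treeT5_4 : Tree 5 0 (tgv 5 (cT 5 4)) (sigf 5 (cT 5 4) (4 - 1))
    (rootT 4 (dT 5 4) (decide (sigf 5 (cT 5 4) (4 - 1) = 4 - 1))) :=
  mkTree 13 tab5 okph5 cT5_4_0 (by decide +kernel)
theorem treeT5_6 : Tree 5 0 (tgv 5 (cT 5 6)) (sigf 5 (cT 5 6) (6 - 1))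
    (rootT 6 (dT 5 6) (decide (sigf 5 (cT 5 6) (6 - 1) = 6 - 1))) :=
  mkTree 1 tab5 okph5 cT5_6_0 (by decide +kernel)
theorem treeT6_1 : Tree 6 0 (tgv 6 (cT 6 1)) (sigf 6 (cT 6 1) (1 - 1))
    (rootT 1 (dT 6 1) (decide (sigf 6 (cT 6 1) (1 - 1) = 1 - 1))) :=
  mkTree 1 tab6 okph6 cT6_1_0 (by decide +kernel)
theorem treeT6_2 : Tree 6 0 (tgv 6 (cT 6 2)) (sigf 6 (cT 6 2) (2 - 1))
    (rootT 2 (dT 6 2) (decide (sigf 6 (cT 6 2) (2 - 1) = 2 - 1))) :=
  mkTree 1 tab6 okph6 cT6_2_0 (by decide +kernel)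
theorem treeT6_3 : Tree 6 0 (tgv 6 (cT 6 3)) (sigf 6 (cT 6 3) (3 - 1))
    (rootT 3 (dT 6 3) (decide (sigf 6 (cT 6 3) (3 - 1) = 3 - 1))) :=
  mkTree 2 tab6 okph6 cT6_3_0 (by decide +kernel)
theorem treeT6_4 : Tree 6 0 (tgv 6 (cT 6 4)) (sigf 6 (cT 6 4) (4 - 1))
    (rootT 4 (dT 6 4) (decide (sigf 6 (cT 6 4) (4 - 1) = 4 - 1))) :=
  mkTree 8 tab6 okph6 cT6_4_0 (by decide +kernel)
theorem treeT6_5 : Tree 6 0 (tgv 6 (cT 6 5)) (sigf 6 (cT 6 5) (5 - 1))
    (rootT 5 (dT 6 5) (decide (sigf 6 (cT 6 5) (5 - 1) = 5 - 1))) :=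
  mkTree 1 tab6 okph6 cT6_5_0 (by decide +kernel)
theorem allTrees : AllTrees where
  b1 r hr h := by
    interval_cases r
    exacts [treeB0_1,
      absurd h (by decide),
      absurd h (by decide),
      treeB3_1,
      absurd h (by decide),
      absurd h (by decide),
      treeB6_1]
  t r hr s hs h1 h := by
    interval_cases r <;> interval_cases s
    exacts [treeT0_1,
      treeT0_2,
      treeT0_3,
      treeT0_4,
      treeT0_5,
      treeT0_6,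
      treeT1_1,
      treeT1_2,
      treeT1_3,
      treeT1_4,
      treeT1_5,
      treeT1_6,
      treeT2_1,
      treeT2_2,
      treeT2_3,
      treeT2_4,
      treeT2_5,
      treeT2_6,
      treeT3_1,
      treeT3_2,
      treeT3_3,
      treeT3_4,
      treeT3_5,
      treeT3_6,
      treeT4_1,
      treeT4_2,
      treeT4_3,
      treeT4_4,
      treeT4_5,
      treeT4_6,
      treeT5_1,
      treeT5_2,
      treeT5_3,
      treeT5_4,
      absurd h (by decide),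
      treeT5_6,
      treeT6_1,
      treeT6_2,
      treeT6_3,
      treeT6_4,
      treeT6_5,
      absurd h (by decide)]
  b2 r hr h := by
    interval_cases r
    exacts [treeB0_2,
      absurd h (by decide),
      absurd h (by decide),
      absurd h (by decide),
      absurd h (by decide),
      absurd h (by decide),
      absurd h (by decide)]
  k r hr q hq h := by
    interval_cases r <;> interval_cases q
    exacts [absurd h (by decide),
      absurd h (by decide),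
      treeK1_0,
      absurd h (by decide),
      treeK2_0,
      absurd h (by decide),
      treeK3_0,
      treeK3_1,
      treeK4_0,
      absurd h (by decide),
      treeK5_0,
      absurd h (by decide),
      absurd h (by decide),
      absurd h (by decide)]
  a r hr h1 d hd h2 := by
    have h := And.intro h1 h2
    clear h1 h2
    interval_cases r <;> interval_cases d
    exacts [absurd h (by decide),
      absurd h (by decide),
      absurd h (by decide),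
      absurd h (by decide),
      absurd h (by decide),
      absurd h (by decide),
      absurd h (by decide),
      treeA1_1,
      treeA1_2,
      treeA1_3,
      treeA1_4,
      treeA1_5,
      absurd h (by decide),
      treeA2_1,
      treeA2_2,
      treeA2_3,
      treeA2_4,
      treeA2_5,
      absurd h (by decide),
      absurd h (by decide),
      treeA3_2,
      treeA3_3,
      treeA3_4,
      treeA3_5,
      absurd h (by decide),
      treeA4_1,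
      treeA4_2,
      treeA4_3,
      treeA4_4,
      treeA4_5,
      absurd h (by decide),
      absurd h (by decide),
      absurd h (by decide),
      absurd h (by decide),
      absurd h (by decide),
      absurd h (by decide),
      absurd h (by decide),
      absurd h (by decide),
      absurd h (by decide),
      absurd h (by decide),
      absurd h (by decide),
      absurd h (by decide)]
  n r hr h1 d hd h2 := by
    have h := And.intro h1 h2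
    clear h1 h2
    interval_cases r <;> interval_cases d
    exacts [absurd h (by decide),
      absurd h (by decide),
      absurd h (by decide),
      treeN0_3,
      treeN0_4,
      treeN0_5,
      absurd h (by decide),
      absurd h (by decide),
      absurd h (by decide),
      absurd h (by decide),
      absurd h (by decide),
      absurd h (by decide),
      absurd h (by decide),
      absurd h (by decide),
      absurd h (by decide),
      absurd h (by decide),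
      absurd h (by decide),
      absurd h (by decide),
      absurd h (by decide),
      absurd h (by decide),
      absurd h (by decide),
      absurd h (by decide),
      absurd h (by decide),
      absurd h (by decide),
      absurd h (by decide),
      absurd h (by decide),
      absurd h (by decide),
      absurd h (by decide),
      absurd h (by decide),
      absurd h (by decide),
      absurd h (by decide),
      treeN5_1,
      treeN5_2,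
      treeN5_3,
      treeN5_4,
      treeN5_5,
      absurd h (by decide),
      absurd h (by decide),
      treeN6_2,
      treeN6_3,
      treeN6_4,
      treeN6_5]
  f nf hn d hd h1 h := by
    simp only [List.mem_cons, List.not_mem_nil, or_false] at hn
    rcases hn with rfl | rfl | rfl | rfl | rfl <;> interval_cases d
    exacts [treeF3_1,
      absurd h (by decide),
      absurd h (by decide),
      absurd h (by decide),
      absurd h (by decide),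
      treeF4_1,
      absurd h (by decide),
      absurd h (by decide),
      absurd h (by decide),
      absurd h (by decide),
      treeF8_1,
      treeF8_2,
      treeF8_3,
      absurd h (by decide),
      absurd h (by decide),
      treeF10_1,
      treeF10_2,
      treeF10_3,
      treeF10_4,
      absurd h (by decide),
      treeF11_1,
      treeF11_2,
      treeF11_3,
      treeF11_4,
      treeF11_5]

end Pool.Agent.MP_75ef89_co.Ex
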