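import Pool.Agent.MP_75ef89_co.Ex.Fast2

/-! Chains of checked table entries. -/

namespace Pool.Agent.MP_75ef89_co.Ex

/-- The entries `j0, …, j1 - 1` of the table have been checked. -/
def ChF (tbl : ℕ → ℕ) (w wT gs ph tg sg hm nf j0 j1 : ℕ) : Prop := ∀ P : ℕ → Prop,
  (∀ L j, chkL tbl w wT gs ph tg sg hm nf L j = true → (∀ i < j, P i) → ∀ i < j + L.length, P i) →
    (∀ i < j0, P i) → ∀ i < j1, P i

noncomputable def chkN (tbl : ℕ → ℕ) (w wT gs ph tg sg hm nf : ℕ) (L : List ℕ) (j1 j2 : ℕ) : Bool :=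
  @Bool.rec (fun _ => Bool) false (chkLF tbl w wT gs ph tg sg hm nf L j1)
    (Nat.beq (Nat.add j1 L.length) j2)

variable {tbl : ℕ → ℕ} {w wT gs ph tg sg hm nf j0 j1 j2 : ℕ} {L : List ℕ}

theorem ChF.one (h : chkN tbl w wT gs ph tg sg hm nf L j1 j2 = true) :
    ChF tbl w wT gs ph tg sg hm nf j1 j2 := by
  intro P hP h0
  unfold chkN at h
  cases hb : Nat.beq (Nat.add j1 L.length) j2
  · rw [hb] at h
    exact absurd h Bool.false_ne_true
  · rw [hb] at h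
    exact Nat.eq_of_beq_eq_true hb ▸ hP L j1 ((chkLF_eq _ _ _ _ _ _ _ _ _ L j1).symm.trans h) h0

theorem ChF.trans (h1 : ChF tbl w wT gs ph tg sg hm nf j0 j1)
    (h2 : ChF tbl w wT gs ph tg sg hm nf j1 j2) : ChF tbl w wT gs ph tg sg hm nf j0 j2 :=
  fun P hP h0 => h2 P hP (h1 P hP h0)

theorem ChF.step (h1 : ChF tbl w wT gs ph tg sg hm nf j0 j1)
    (h : chkN tbl w wT gs ph tg sg hm nf L j1 j2 = true) : ChF tbl w wT gs ph tg sg hm nf j0 j2 :=
  h1.trans (ChF.one h)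

end Pool.Agent.MP_75ef89_co.Ex
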