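import Pool.Agent.MP_75ef89_co.Ex.Spec3
import Pool.Agent.MP_75ef89_co.Ex.C.Ch

/-! From checked chains to trees. -/

namespace Pool.Agent.MP_75ef89_co.Ex

variable {tbl : ℕ → ℕ} {r nm nm' nf d hm w wT gs gs' ph tg sg tg' sg' c0 j0 j1 : ℕ}

theorem TabChk.of_gs (h : TabChk r 0 nm w wT gs)
    (h' : (∀ s < 16, G s < 441 * (ent gs' s + 1)) ∧ ent gs' 16 < 2 ^ 16 ∧
      ∀ s < 16, (ent gs' 16).testBit s = true → s < nm' ∨ s % 7 ≠ r) : TabChk r 0 nm' w wT gs' :=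
  ⟨h.1, h.2.1, h.2.2.1, h'⟩

theorem mkTree (N : ℕ) (h1 : TabChk r 0 nm w wT gs) (h2 : PhiChk r 0 32 ph)
    (h3 : ChF tbl w wT gs ph tg' sg' 32 0 0 j1)
    (h4 : tg' = tg ∧ sg' = sg ∧ j1 = N + 1 ∧ tbl N = c0) : Tree r nm tg sg c0 := by
  obtain ⟨rfl, rfl, rfl, h4⟩ := h4
  exact ⟨tbl, w, wT, gs, ph, N, h1, h2, h3, h4⟩

theorem mkTreeF (N : ℕ) (h1 : TabChk r nf 0 w wT gs) (h2 : PhiChk r nf hm ph)
    (h3 : ChF tbl w wT gs ph tg 31 hm nf 0 j1)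
    (h4 : r = nf % 7 ∧ hm = nf - 1 - d ∧ tg = F nf ∧ j1 = N + 1 ∧ tbl N = rootD d) :
    TreeF nf d := by
  obtain ⟨rfl, rfl, rfl, rfl, h4⟩ := h4
  exact ⟨tbl, w, wT, gs, ph, N, h1, h2, h3, h4⟩

theorem mkTreeN (N s u : ℕ) (h1 : TabChk r 0 0 w wT gs) (h2 : PhiChk r 0 32 ph)
    (h3 : ChF tbl w wT gs ph tg sg 32 0 j0 j1)
    (h4 : tg = tgv r (cN r) ∧ sg = sigf r (cN r) 6 ∧ j1 = N + 1 ∧ tbl N = rootD d ∧ u = tgv r 1000)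
    (h5 : ∀ i < j0, Blk r w gs (tbl i) ∧
      ilfF w wT gs u (nib (tbl i) 0) (xpdF (tbl i)) s ≠ 0) : TreeN r d := by
  obtain ⟨rfl, rfl, rfl, h4, rfl⟩ := h4
  rw [ilfF_eq, xpdF_eq] at h5
  exact ⟨tbl, w, wT, gs, ph, j0, N, h1, h2, fun i hi => ⟨(h5 i hi).1, s, (h5 i hi).2⟩, h3, h4⟩

end Pool.Agent.MP_75ef89_co.Ex
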