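import Pool.Agent.MP_75ef89_co.Ex.C.W1
import Pool.Agent.MP_75ef89_co.Ex.C.TA1_3_0
import Pool.Agent.MP_75ef89_co.Ex.C.TA1_3_1

/-! Table of states. -/

namespace Pool.Agent.MP_75ef89_co.Ex

noncomputable def uA1_3_0_0 : Tr := (.nd (.nd (.nd (.nd tA1_3_0 tA1_3_1) (.nd tA1_3_2 tA1_3_3)) (.nd (.nd tA1_3_4 tA1_3_5) (.nd tA1_3_6 tA1_3_7))) (.nd (.nd (.nd tA1_3_8 tA1_3_9) (.nd tA1_3_10 tA1_3_11)) (.nd (.nd tA1_3_12 tA1_3_13) (.nd tA1_3_14 tA1_3_15))))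
noncomputable def uA1_3_0_1 : Tr := (.nd (.nd (.nd (.nd tA1_3_16 tA1_3_17) (.nd tA1_3_18 tA1_3_19)) (.nd (.nd tA1_3_20 tA1_3_21) (.nd tA1_3_22 tA1_3_23))) (.nd (.nd (.nd tA1_3_24 tA1_3_25) (.nd tA1_3_26 tA1_3_27)) (.nd (.nd tA1_3_28 tA1_3_29) (.nd tA1_3_30 tA1_3_31))))
noncomputable def uA1_3_0_2 : Tr := (.nd (.nd (.nd (.nd tA1_3_32 tA1_3_33) (.nd tA1_3_34 tA1_3_35)) (.nd (.nd tA1_3_36 tA1_3_37) (.nd tA1_3_38 tA1_3_39))) (.nd (.nd (.nd tA1_3_40 tA1_3_41) (.nd tA1_3_42 tA1_3_43)) (.nd (.nd tA1_3_44 tA1_3_45) (.nd tA1_3_46 tA1_3_47))))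
noncomputable def uA1_3_0_3 : Tr := (.nd (.nd (.nd (.nd tA1_3_48 tA1_3_49) (.nd tA1_3_50 tA1_3_51)) (.nd (.nd tA1_3_52 tA1_3_53) (.nd tA1_3_54 tA1_3_55))) (.nd (.nd (.nd tA1_3_56 tA1_3_57) (.nd tA1_3_58 tA1_3_59)) (.nd (.nd tA1_3_60 tA1_3_61) (.nd tA1_3_62 tA1_3_63))))
noncomputable def uA1_3_0_4 : Tr := (.nd (.nd (.nd (.nd tA1_3_64 tA1_3_65) (.nd tA1_3_66 tA1_3_67)) (.nd (.nd tA1_3_68 tA1_3_69) (.nd tA1_3_70 tA1_3_71))) (.nd (.nd (.nd tA1_3_72 tA1_3_73) (.nd tA1_3_74 tA1_3_75)) (.nd (.nd tA1_3_76 tA1_3_77) (.nd tA1_3_78 tA1_3_79))))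
noncomputable def uA1_3_0_5 : Tr := (.nd (.nd (.nd (.nd tA1_3_80 tA1_3_81) (.nd tA1_3_82 tA1_3_83)) (.nd (.nd tA1_3_84 tA1_3_85) (.nd tA1_3_86 tA1_3_87))) (.nd (.nd (.nd tA1_3_88 tA1_3_89) (.nd tA1_3_90 tA1_3_91)) (.nd (.nd tA1_3_92 tA1_3_93) (.nd tA1_3_94 tA1_3_95))))
noncomputable def uA1_3_0_6 : Tr := (.nd (.nd (.nd (.nd tA1_3_96 tA1_3_97) (.nd tA1_3_98 tA1_3_99)) (.nd (.nd tA1_3_100 tA1_3_101) (.nd tA1_3_102 tA1_3_103))) (.nd (.nd (.nd tA1_3_104 tA1_3_105) (.nd tA1_3_106 tA1_3_107)) (.nd (.nd tA1_3_108 tA1_3_109) (.nd tA1_3_110 tA1_3_111))))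
noncomputable def uA1_3_0_7 : Tr := (.nd (.nd (.nd (.nd tA1_3_112 tA1_3_113) (.nd tA1_3_114 tA1_3_115)) (.nd (.nd tA1_3_116 tA1_3_117) (.nd tA1_3_118 tA1_3_119))) (.nd (.nd (.nd tA1_3_120 tA1_3_121) (.nd tA1_3_122 tA1_3_123)) (.nd (.nd tA1_3_124 tA1_3_125) (.nd tA1_3_126 tA1_3_127))))
noncomputable def uA1_3_0_8 : Tr := (.nd (.nd (.nd (.nd tA1_3_128 tA1_3_129) (.nd tA1_3_130 tA1_3_131)) (.nd (.nd tA1_3_132 tA1_3_133) (.nd tA1_3_134 tA1_3_135))) (.nd (.nd (.nd tA1_3_136 tA1_3_137) (.nd tA1_3_138 tA1_3_139)) (.nd (.nd tA1_3_140 tA1_3_141) (.nd tA1_3_142 tA1_3_143))))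
noncomputable def uA1_3_0_9 : Tr := (.nd (.nd (.nd (.nd tA1_3_144 tA1_3_145) (.nd tA1_3_146 tA1_3_147)) (.nd (.nd tA1_3_148 tA1_3_149) (.nd tA1_3_150 tA1_3_151))) (.nd (.nd (.nd tA1_3_152 tA1_3_153) (.nd tA1_3_154 tA1_3_155)) (.nd (.nd tA1_3_156 tA1_3_157) (.nd tA1_3_158 tA1_3_159))))
noncomputable def uA1_3_0_10 : Tr := (.nd (.nd (.nd (.nd tA1_3_160 tA1_3_161) (.nd tA1_3_162 tA1_3_163)) (.nd (.nd tA1_3_164 tA1_3_165) (.nd tA1_3_166 tA1_3_167))) (.nd (.nd (.nd tA1_3_168 tA1_3_169) (.nd tA1_3_170 tA1_3_171)) (.nd (.nd tA1_3_172 tA1_3_173) (.nd tA1_3_174 tA1_3_175))))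
noncomputable def uA1_3_0_11 : Tr := (.nd (.nd (.nd (.nd tA1_3_176 tA1_3_177) (.nd tA1_3_178 tA1_3_179)) (.nd (.nd tA1_3_180 tA1_3_181) (.nd tA1_3_182 tA1_3_183))) (.nd (.nd (.nd tA1_3_184 tA1_3_185) (.nd tA1_3_186 tA1_3_187)) (.nd (.nd tA1_3_188 tA1_3_189) (.nd tA1_3_190 tA1_3_191))))
noncomputable def uA1_3_0_12 : Tr := (.nd (.nd (.nd (.nd tA1_3_192 tA1_3_193) (.nd tA1_3_194 tA1_3_195)) (.nd (.nd tA1_3_196 tA1_3_197) (.nd tA1_3_198 tA1_3_199))) (.nd (.nd (.nd tA1_3_200 tA1_3_201) (.nd tA1_3_202 tA1_3_203)) (.nd (.nd tA1_3_204 tA1_3_205) (.nd tA1_3_206 tA1_3_207))))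
noncomputable def uA1_3_0_13 : Tr := (.nd (.nd (.nd (.nd tA1_3_208 tA1_3_209) (.nd tA1_3_210 tA1_3_211)) (.nd (.nd tA1_3_212 tA1_3_213) (.nd tA1_3_214 tA1_3_215))) (.nd (.nd (.nd tA1_3_216 tA1_3_217) (.nd tA1_3_218 tA1_3_219)) (.nd (.nd tA1_3_220 tA1_3_221) (.nd tA1_3_222 tA1_3_223))))
noncomputable def uA1_3_0_14 : Tr := (.nd (.nd (.nd (.nd tA1_3_224 tA1_3_225) (.nd tA1_3_226 tA1_3_227)) (.nd (.nd tA1_3_228 tA1_3_229) (.nd tA1_3_230 tA1_3_231))) (.nd (.nd (.nd tA1_3_232 tA1_3_233) (.nd tA1_3_234 tA1_3_235)) (.nd (.nd tA1_3_236 tA1_3_237) (.nd tA1_3_238 tA1_3_239))))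
noncomputable def uA1_3_0_15 : Tr := (.nd (.nd (.nd (.nd tA1_3_240 tA1_3_241) (.nd tA1_3_242 tA1_3_243)) (.nd (.nd tA1_3_244 tA1_3_245) (.nd tA1_3_246 tA1_3_247))) (.nd (.nd (.nd tA1_3_248 tA1_3_249) (.nd tA1_3_250 tA1_3_251)) (.nd (.nd tA1_3_252 tA1_3_253) (.nd tA1_3_254 tA1_3_255))))
noncomputable def uA1_3_0_16 : Tr := (.nd (.nd (.nd (.nd tA1_3_256 tA1_3_257) (.nd tA1_3_258 tA1_3_259)) (.nd (.nd tA1_3_260 tA1_3_261) (.nd tA1_3_262 tA1_3_263))) (.nd (.nd (.nd tA1_3_264 tA1_3_265) (.nd tA1_3_266 tA1_3_267)) (.nd (.nd tA1_3_268 tA1_3_269) (.nd tA1_3_270 tA1_3_271))))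
noncomputable def uA1_3_0_17 : Tr := (.nd (.nd (.nd (.nd tA1_3_272 tA1_3_273) (.nd tA1_3_274 tA1_3_275)) (.nd (.nd tA1_3_276 tA1_3_277) (.nd tA1_3_278 tA1_3_279))) (.nd (.nd (.nd tA1_3_280 tA1_3_281) (.nd tA1_3_282 tA1_3_283)) (.nd (.nd tA1_3_284 tA1_3_285) (.nd tA1_3_286 tA1_3_287))))
noncomputable def uA1_3_0_18 : Tr := (.nd (.nd (.nd (.nd tA1_3_288 tA1_3_289) (.nd tA1_3_290 tA1_3_291)) (.nd (.nd tA1_3_292 tA1_3_293) (.nd tA1_3_294 tA1_3_295))) (.nd (.nd (.nd tA1_3_296 tA1_3_297) (.nd tA1_3_298 tA1_3_299)) (.nd (.nd tA1_3_300 tA1_3_301) (.nd tA1_3_302 tA1_3_303))))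
noncomputable def uA1_3_0_19 : Tr := (.nd (.nd (.nd (.nd tA1_3_304 tA1_3_305) (.nd tA1_3_306 tA1_3_307)) (.nd (.nd tA1_3_308 tA1_3_309) (.nd tA1_3_310 tA1_3_311))) (.nd (.nd (.nd tA1_3_312 tA1_3_313) (.nd tA1_3_314 tA1_3_315)) (.nd (.nd tA1_3_316 tA1_3_317) (.nd tA1_3_318 tA1_3_319))))
noncomputable def uA1_3_0_20 : Tr := (.nd (.nd (.nd (.nd tA1_3_320 tA1_3_321) (.nd tA1_3_322 tA1_3_323)) (.nd (.nd tA1_3_324 tA1_3_325) (.nd tA1_3_326 tA1_3_327))) (.nd (.nd (.nd tA1_3_328 tA1_3_329) (.nd tA1_3_330 tA1_3_331)) (.nd (.nd tA1_3_332 tA1_3_333) (.nd tA1_3_334 tA1_3_335))))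
noncomputable def uA1_3_0_21 : Tr := (.nd (.nd (.nd (.nd tA1_3_336 tA1_3_337) (.nd tA1_3_338 tA1_3_339)) (.nd (.nd tA1_3_340 tA1_3_341) (.nd tA1_3_342 tA1_3_343))) (.nd (.nd (.nd tA1_3_344 tA1_3_345) (.nd tA1_3_346 tA1_3_347)) (.nd (.nd tA1_3_348 tA1_3_349) (.nd tA1_3_350 tA1_3_351))))
noncomputable def uA1_3_0_22 : Tr := (.nd (.nd (.nd (.nd tA1_3_352 tA1_3_353) (.nd tA1_3_354 tA1_3_355)) (.nd (.nd tA1_3_356 tA1_3_357) (.nd tA1_3_358 tA1_3_359))) (.nd (.nd (.nd tA1_3_360 tA1_3_361) (.nd tA1_3_362 tA1_3_363)) (.nd (.nd tA1_3_364 tA1_3_365) (.nd tA1_3_366 tA1_3_367))))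
noncomputable def uA1_3_0_23 : Tr := (.nd (.nd (.nd (.nd tA1_3_368 tA1_3_369) (.nd tA1_3_370 tA1_3_371)) (.nd (.nd tA1_3_372 tA1_3_373) (.nd tA1_3_374 tA1_3_375))) (.nd (.nd (.nd tA1_3_376 tA1_3_377) (.nd tA1_3_378 tA1_3_379)) (.lf 0)))
noncomputable def uA1_3_1_0 : Tr := (.nd (.nd (.nd (.nd uA1_3_0_0 uA1_3_0_1) (.nd uA1_3_0_2 uA1_3_0_3)) (.nd (.nd uA1_3_0_4 uA1_3_0_5) (.nd uA1_3_0_6 uA1_3_0_7))) (.nd (.nd (.nd uA1_3_0_8 uA1_3_0_9) (.nd uA1_3_0_10 uA1_3_0_11)) (.nd (.nd uA1_3_0_12 uA1_3_0_13) (.nd uA1_3_0_14 uA1_3_0_15))))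
noncomputable def uA1_3_1_1 : Tr := (.nd (.nd (.nd (.nd uA1_3_0_16 uA1_3_0_17) (.nd uA1_3_0_18 uA1_3_0_19)) (.nd (.nd uA1_3_0_20 uA1_3_0_21) (.nd uA1_3_0_22 uA1_3_0_23))) (.lf 0))
noncomputable def tA1_3 : Tr := (.nd uA1_3_1_0 uA1_3_1_1)

end Pool.Agent.MP_75ef89_co.Ex
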