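import Pool.Agent.MP_75ef89_co.Ex.C.W4
import Pool.Agent.MP_75ef89_co.Ex.C.TA4_2_0
import Pool.Agent.MP_75ef89_co.Ex.C.TA4_2_1

/-! Table of states. -/

namespace Pool.Agent.MP_75ef89_co.Ex

noncomputable def uA4_2_0_0 : Tr := (.nd (.nd (.nd (.nd tA4_2_0 tA4_2_1) (.nd tA4_2_2 tA4_2_3)) (.nd (.nd tA4_2_4 tA4_2_5) (.nd tA4_2_6 tA4_2_7))) (.nd (.nd (.nd tA4_2_8 tA4_2_9) (.nd tA4_2_10 tA4_2_11)) (.nd (.nd tA4_2_12 tA4_2_13) (.nd tA4_2_14 tA4_2_15))))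
noncomputable def uA4_2_0_1 : Tr := (.nd (.nd (.nd (.nd tA4_2_16 tA4_2_17) (.nd tA4_2_18 tA4_2_19)) (.nd (.nd tA4_2_20 tA4_2_21) (.nd tA4_2_22 tA4_2_23))) (.nd (.nd (.nd tA4_2_24 tA4_2_25) (.nd tA4_2_26 tA4_2_27)) (.nd (.nd tA4_2_28 tA4_2_29) (.nd tA4_2_30 tA4_2_31))))
noncomputable def uA4_2_0_2 : Tr := (.nd (.nd (.nd (.nd tA4_2_32 tA4_2_33) (.nd tA4_2_34 tA4_2_35)) (.nd (.nd tA4_2_36 tA4_2_37) (.nd tA4_2_38 tA4_2_39))) (.nd (.nd (.nd tA4_2_40 tA4_2_41) (.nd tA4_2_42 tA4_2_43)) (.nd (.nd tA4_2_44 tA4_2_45) (.nd tA4_2_46 tA4_2_47))))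
noncomputable def uA4_2_0_3 : Tr := (.nd (.nd (.nd (.nd tA4_2_48 tA4_2_49) (.nd tA4_2_50 tA4_2_51)) (.nd (.nd tA4_2_52 tA4_2_53) (.nd tA4_2_54 tA4_2_55))) (.nd (.nd (.nd tA4_2_56 tA4_2_57) (.nd tA4_2_58 tA4_2_59)) (.nd (.nd tA4_2_60 tA4_2_61) (.nd tA4_2_62 tA4_2_63))))
noncomputable def uA4_2_0_4 : Tr := (.nd (.nd (.nd (.nd tA4_2_64 tA4_2_65) (.nd tA4_2_66 tA4_2_67)) (.nd (.nd tA4_2_68 tA4_2_69) (.nd tA4_2_70 tA4_2_71))) (.nd (.nd (.nd tA4_2_72 tA4_2_73) (.nd tA4_2_74 tA4_2_75)) (.nd (.nd tA4_2_76 tA4_2_77) (.nd tA4_2_78 tA4_2_79))))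
noncomputable def uA4_2_0_5 : Tr := (.nd (.nd (.nd (.nd tA4_2_80 tA4_2_81) (.nd tA4_2_82 tA4_2_83)) (.nd (.nd tA4_2_84 tA4_2_85) (.nd tA4_2_86 tA4_2_87))) (.nd (.nd (.nd tA4_2_88 tA4_2_89) (.nd tA4_2_90 tA4_2_91)) (.nd (.nd tA4_2_92 tA4_2_93) (.nd tA4_2_94 tA4_2_95))))
noncomputable def uA4_2_0_6 : Tr := (.nd (.nd (.nd (.nd tA4_2_96 tA4_2_97) (.nd tA4_2_98 tA4_2_99)) (.nd (.nd tA4_2_100 tA4_2_101) (.nd tA4_2_102 tA4_2_103))) (.nd (.nd (.nd tA4_2_104 tA4_2_105) (.nd tA4_2_106 tA4_2_107)) (.nd (.nd tA4_2_108 tA4_2_109) (.nd tA4_2_110 tA4_2_111))))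
noncomputable def uA4_2_0_7 : Tr := (.nd (.nd (.nd (.nd tA4_2_112 tA4_2_113) (.nd tA4_2_114 tA4_2_115)) (.nd (.nd tA4_2_116 tA4_2_117) (.nd tA4_2_118 tA4_2_119))) (.nd (.nd (.nd tA4_2_120 tA4_2_121) (.nd tA4_2_122 tA4_2_123)) (.nd (.nd tA4_2_124 tA4_2_125) (.nd tA4_2_126 tA4_2_127))))
noncomputable def uA4_2_0_8 : Tr := (.nd (.nd (.nd (.nd tA4_2_128 tA4_2_129) (.nd tA4_2_130 tA4_2_131)) (.nd (.nd tA4_2_132 tA4_2_133) (.nd tA4_2_134 tA4_2_135))) (.nd (.nd (.nd tA4_2_136 tA4_2_137) (.nd tA4_2_138 tA4_2_139)) (.nd (.nd tA4_2_140 tA4_2_141) (.nd tA4_2_142 tA4_2_143))))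
noncomputable def uA4_2_0_9 : Tr := (.nd (.nd (.nd (.nd tA4_2_144 tA4_2_145) (.nd tA4_2_146 tA4_2_147)) (.nd (.nd tA4_2_148 tA4_2_149) (.nd tA4_2_150 tA4_2_151))) (.nd (.nd (.nd tA4_2_152 tA4_2_153) (.nd tA4_2_154 tA4_2_155)) (.nd (.nd tA4_2_156 tA4_2_157) (.nd tA4_2_158 tA4_2_159))))
noncomputable def uA4_2_0_10 : Tr := (.nd (.nd (.nd (.nd tA4_2_160 tA4_2_161) (.nd tA4_2_162 tA4_2_163)) (.nd (.nd tA4_2_164 tA4_2_165) (.nd tA4_2_166 tA4_2_167))) (.nd (.nd (.nd tA4_2_168 tA4_2_169) (.nd tA4_2_170 tA4_2_171)) (.nd (.nd tA4_2_172 tA4_2_173) (.nd tA4_2_174 tA4_2_175))))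
noncomputable def uA4_2_0_11 : Tr := (.nd (.nd (.nd (.nd tA4_2_176 tA4_2_177) (.nd tA4_2_178 tA4_2_179)) (.nd (.nd tA4_2_180 tA4_2_181) (.nd tA4_2_182 tA4_2_183))) (.nd (.nd (.nd tA4_2_184 tA4_2_185) (.nd tA4_2_186 tA4_2_187)) (.nd (.nd tA4_2_188 tA4_2_189) (.nd tA4_2_190 tA4_2_191))))
noncomputable def uA4_2_0_12 : Tr := (.nd (.nd (.nd (.nd tA4_2_192 tA4_2_193) (.nd tA4_2_194 tA4_2_195)) (.nd (.nd tA4_2_196 tA4_2_197) (.nd tA4_2_198 tA4_2_199))) (.nd (.nd (.nd tA4_2_200 tA4_2_201) (.nd tA4_2_202 tA4_2_203)) (.nd (.nd tA4_2_204 tA4_2_205) (.nd tA4_2_206 tA4_2_207))))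
noncomputable def uA4_2_0_13 : Tr := (.nd (.nd (.nd (.nd tA4_2_208 tA4_2_209) (.nd tA4_2_210 tA4_2_211)) (.nd (.nd tA4_2_212 tA4_2_213) (.nd tA4_2_214 tA4_2_215))) (.nd (.nd (.nd tA4_2_216 tA4_2_217) (.nd tA4_2_218 tA4_2_219)) (.nd (.nd tA4_2_220 tA4_2_221) (.nd tA4_2_222 tA4_2_223))))
noncomputable def uA4_2_0_14 : Tr := (.nd (.nd (.nd (.nd tA4_2_224 tA4_2_225) (.nd tA4_2_226 tA4_2_227)) (.nd (.nd tA4_2_228 tA4_2_229) (.nd tA4_2_230 tA4_2_231))) (.nd (.nd (.nd tA4_2_232 tA4_2_233) (.nd tA4_2_234 tA4_2_235)) (.nd (.nd tA4_2_236 tA4_2_237) (.nd tA4_2_238 tA4_2_239))))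
noncomputable def uA4_2_0_15 : Tr := (.nd (.nd (.nd (.nd tA4_2_240 tA4_2_241) (.nd tA4_2_242 tA4_2_243)) (.nd (.nd tA4_2_244 tA4_2_245) (.nd tA4_2_246 tA4_2_247))) (.nd (.nd (.nd tA4_2_248 tA4_2_249) (.nd tA4_2_250 tA4_2_251)) (.nd (.nd tA4_2_252 tA4_2_253) (.nd tA4_2_254 tA4_2_255))))
noncomputable def uA4_2_0_16 : Tr := (.nd (.nd (.nd (.nd tA4_2_256 tA4_2_257) (.nd tA4_2_258 tA4_2_259)) (.nd (.nd tA4_2_260 tA4_2_261) (.nd tA4_2_262 tA4_2_263))) (.nd (.nd (.nd tA4_2_264 tA4_2_265) (.nd tA4_2_266 tA4_2_267)) (.nd (.nd tA4_2_268 tA4_2_269) (.nd tA4_2_270 tA4_2_271))))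
noncomputable def uA4_2_0_17 : Tr := (.nd (.nd (.nd (.nd tA4_2_272 tA4_2_273) (.nd tA4_2_274 tA4_2_275)) (.nd (.nd tA4_2_276 tA4_2_277) (.nd tA4_2_278 tA4_2_279))) (.nd (.nd (.nd tA4_2_280 tA4_2_281) (.nd tA4_2_282 tA4_2_283)) (.nd (.nd tA4_2_284 tA4_2_285) (.nd tA4_2_286 tA4_2_287))))
noncomputable def uA4_2_0_18 : Tr := (.nd (.nd (.nd (.nd tA4_2_288 tA4_2_289) (.nd tA4_2_290 tA4_2_291)) (.nd (.nd tA4_2_292 tA4_2_293) (.nd tA4_2_294 tA4_2_295))) (.nd (.nd (.nd tA4_2_296 tA4_2_297) (.nd tA4_2_298 tA4_2_299)) (.nd (.nd tA4_2_300 tA4_2_301) (.nd tA4_2_302 tA4_2_303))))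
noncomputable def uA4_2_0_19 : Tr := (.nd (.nd (.nd (.nd tA4_2_304 tA4_2_305) (.nd tA4_2_306 tA4_2_307)) (.nd (.nd tA4_2_308 tA4_2_309) (.nd tA4_2_310 tA4_2_311))) (.nd (.nd (.nd tA4_2_312 tA4_2_313) (.nd tA4_2_314 tA4_2_315)) (.nd (.nd tA4_2_316 tA4_2_317) (.nd tA4_2_318 tA4_2_319))))
noncomputable def uA4_2_0_20 : Tr := (.nd (.nd (.nd (.nd tA4_2_320 tA4_2_321) (.nd tA4_2_322 tA4_2_323)) (.nd (.nd tA4_2_324 tA4_2_325) (.nd tA4_2_326 tA4_2_327))) (.nd (.nd (.nd tA4_2_328 tA4_2_329) (.nd tA4_2_330 tA4_2_331)) (.nd (.nd tA4_2_332 tA4_2_333) (.nd tA4_2_334 tA4_2_335))))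
noncomputable def uA4_2_0_21 : Tr := (.nd (.nd (.nd (.nd tA4_2_336 tA4_2_337) (.nd tA4_2_338 tA4_2_339)) (.nd (.nd tA4_2_340 tA4_2_341) (.nd tA4_2_342 tA4_2_343))) (.nd (.nd (.nd tA4_2_344 tA4_2_345) (.nd tA4_2_346 (.lf 0))) (.lf 0)))
noncomputable def uA4_2_1_0 : Tr := (.nd (.nd (.nd (.nd uA4_2_0_0 uA4_2_0_1) (.nd uA4_2_0_2 uA4_2_0_3)) (.nd (.nd uA4_2_0_4 uA4_2_0_5) (.nd uA4_2_0_6 uA4_2_0_7))) (.nd (.nd (.nd uA4_2_0_8 uA4_2_0_9) (.nd uA4_2_0_10 uA4_2_0_11)) (.nd (.nd uA4_2_0_12 uA4_2_0_13) (.nd uA4_2_0_14 uA4_2_0_15))))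
noncomputable def uA4_2_1_1 : Tr := (.nd (.nd (.nd (.nd uA4_2_0_16 uA4_2_0_17) (.nd uA4_2_0_18 uA4_2_0_19)) (.nd (.nd uA4_2_0_20 uA4_2_0_21) (.lf 0))) (.lf 0))
noncomputable def tA4_2 : Tr := (.nd uA4_2_1_0 uA4_2_1_1)

end Pool.Agent.MP_75ef89_co.Ex
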