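import Pool.Agent.MP_75ef89_co.Ex.C.W4
import Pool.Agent.MP_75ef89_co.Ex.C.TA4_3_0
import Pool.Agent.MP_75ef89_co.Ex.C.TA4_3_1
import Pool.Agent.MP_75ef89_co.Ex.C.TA4_3_2
import Pool.Agent.MP_75ef89_co.Ex.C.TA4_3_3
import Pool.Agent.MP_75ef89_co.Ex.C.TA4_3_4
import Pool.Agent.MP_75ef89_co.Ex.C.TA4_3_5
import Pool.Agent.MP_75ef89_co.Ex.C.TA4_3_6

/-! Table of states. -/

namespace Pool.Agent.MP_75ef89_co.Ex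

noncomputable def uA4_3_0_0 : Tr := (.nd (.nd (.nd (.nd tA4_3_0 tA4_3_1) (.nd tA4_3_2 tA4_3_3)) (.nd (.nd tA4_3_4 tA4_3_5) (.nd tA4_3_6 tA4_3_7))) (.nd (.nd (.nd tA4_3_8 tA4_3_9) (.nd tA4_3_10 tA4_3_11)) (.nd (.nd tA4_3_12 tA4_3_13) (.nd tA4_3_14 tA4_3_15))))
noncomputable def uA4_3_0_1 : Tr := (.nd (.nd (.nd (.nd tA4_3_16 tA4_3_17) (.nd tA4_3_18 tA4_3_19)) (.nd (.nd tA4_3_20 tA4_3_21) (.nd tA4_3_22 tA4_3_23))) (.nd (.nd (.nd tA4_3_24 tA4_3_25) (.nd tA4_3_26 tA4_3_27)) (.nd (.nd tA4_3_28 tA4_3_29) (.nd tA4_3_30 tA4_3_31))))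
noncomputable def uA4_3_0_2 : Tr := (.nd (.nd (.nd (.nd tA4_3_32 tA4_3_33) (.nd tA4_3_34 tA4_3_35)) (.nd (.nd tA4_3_36 tA4_3_37) (.nd tA4_3_38 tA4_3_39))) (.nd (.nd (.nd tA4_3_40 tA4_3_41) (.nd tA4_3_42 tA4_3_43)) (.nd (.nd tA4_3_44 tA4_3_45) (.nd tA4_3_46 tA4_3_47))))
noncomputable def uA4_3_0_3 : Tr := (.nd (.nd (.nd (.nd tA4_3_48 tA4_3_49) (.nd tA4_3_50 tA4_3_51)) (.nd (.nd tA4_3_52 tA4_3_53) (.nd tA4_3_54 tA4_3_55))) (.nd (.nd (.nd tA4_3_56 tA4_3_57) (.nd tA4_3_58 tA4_3_59)) (.nd (.nd tA4_3_60 tA4_3_61) (.nd tA4_3_62 tA4_3_63))))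
noncomputable def uA4_3_0_4 : Tr := (.nd (.nd (.nd (.nd tA4_3_64 tA4_3_65) (.nd tA4_3_66 tA4_3_67)) (.nd (.nd tA4_3_68 tA4_3_69) (.nd tA4_3_70 tA4_3_71))) (.nd (.nd (.nd tA4_3_72 tA4_3_73) (.nd tA4_3_74 tA4_3_75)) (.nd (.nd tA4_3_76 tA4_3_77) (.nd tA4_3_78 tA4_3_79))))
noncomputable def uA4_3_0_5 : Tr := (.nd (.nd (.nd (.nd tA4_3_80 tA4_3_81) (.nd tA4_3_82 tA4_3_83)) (.nd (.nd tA4_3_84 tA4_3_85) (.nd tA4_3_86 tA4_3_87))) (.nd (.nd (.nd tA4_3_88 tA4_3_89) (.nd tA4_3_90 tA4_3_91)) (.nd (.nd tA4_3_92 tA4_3_93) (.nd tA4_3_94 tA4_3_95))))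
noncomputable def uA4_3_0_6 : Tr := (.nd (.nd (.nd (.nd tA4_3_96 tA4_3_97) (.nd tA4_3_98 tA4_3_99)) (.nd (.nd tA4_3_100 tA4_3_101) (.nd tA4_3_102 tA4_3_103))) (.nd (.nd (.nd tA4_3_104 tA4_3_105) (.nd tA4_3_106 tA4_3_107)) (.nd (.nd tA4_3_108 tA4_3_109) (.nd tA4_3_110 tA4_3_111))))
noncomputable def uA4_3_0_7 : Tr := (.nd (.nd (.nd (.nd tA4_3_112 tA4_3_113) (.nd tA4_3_114 tA4_3_115)) (.nd (.nd tA4_3_116 tA4_3_117) (.nd tA4_3_118 tA4_3_119))) (.nd (.nd (.nd tA4_3_120 tA4_3_121) (.nd tA4_3_122 tA4_3_123)) (.nd (.nd tA4_3_124 tA4_3_125) (.nd tA4_3_126 tA4_3_127))))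
noncomputable def uA4_3_0_8 : Tr := (.nd (.nd (.nd (.nd tA4_3_128 tA4_3_129) (.nd tA4_3_130 tA4_3_131)) (.nd (.nd tA4_3_132 tA4_3_133) (.nd tA4_3_134 tA4_3_135))) (.nd (.nd (.nd tA4_3_136 tA4_3_137) (.nd tA4_3_138 tA4_3_139)) (.nd (.nd tA4_3_140 tA4_3_141) (.nd tA4_3_142 tA4_3_143))))
noncomputable def uA4_3_0_9 : Tr := (.nd (.nd (.nd (.nd tA4_3_144 tA4_3_145) (.nd tA4_3_146 tA4_3_147)) (.nd (.nd tA4_3_148 tA4_3_149) (.nd tA4_3_150 tA4_3_151))) (.nd (.nd (.nd tA4_3_152 tA4_3_153) (.nd tA4_3_154 tA4_3_155)) (.nd (.nd tA4_3_156 tA4_3_157) (.nd tA4_3_158 tA4_3_159))))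
noncomputable def uA4_3_0_10 : Tr := (.nd (.nd (.nd (.nd tA4_3_160 tA4_3_161) (.nd tA4_3_162 tA4_3_163)) (.nd (.nd tA4_3_164 tA4_3_165) (.nd tA4_3_166 tA4_3_167))) (.nd (.nd (.nd tA4_3_168 tA4_3_169) (.nd tA4_3_170 tA4_3_171)) (.nd (.nd tA4_3_172 tA4_3_173) (.nd tA4_3_174 tA4_3_175))))
noncomputable def uA4_3_0_11 : Tr := (.nd (.nd (.nd (.nd tA4_3_176 tA4_3_177) (.nd tA4_3_178 tA4_3_179)) (.nd (.nd tA4_3_180 tA4_3_181) (.nd tA4_3_182 tA4_3_183))) (.nd (.nd (.nd tA4_3_184 tA4_3_185) (.nd tA4_3_186 tA4_3_187)) (.nd (.nd tA4_3_188 tA4_3_189) (.nd tA4_3_190 tA4_3_191))))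
noncomputable def uA4_3_0_12 : Tr := (.nd (.nd (.nd (.nd tA4_3_192 tA4_3_193) (.nd tA4_3_194 tA4_3_195)) (.nd (.nd tA4_3_196 tA4_3_197) (.nd tA4_3_198 tA4_3_199))) (.nd (.nd (.nd tA4_3_200 tA4_3_201) (.nd tA4_3_202 tA4_3_203)) (.nd (.nd tA4_3_204 tA4_3_205) (.nd tA4_3_206 tA4_3_207))))
noncomputable def uA4_3_0_13 : Tr := (.nd (.nd (.nd (.nd tA4_3_208 tA4_3_209) (.nd tA4_3_210 tA4_3_211)) (.nd (.nd tA4_3_212 tA4_3_213) (.nd tA4_3_214 tA4_3_215))) (.nd (.nd (.nd tA4_3_216 tA4_3_217) (.nd tA4_3_218 tA4_3_219)) (.nd (.nd tA4_3_220 tA4_3_221) (.nd tA4_3_222 tA4_3_223))))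
noncomputable def uA4_3_0_14 : Tr := (.nd (.nd (.nd (.nd tA4_3_224 tA4_3_225) (.nd tA4_3_226 tA4_3_227)) (.nd (.nd tA4_3_228 tA4_3_229) (.nd tA4_3_230 tA4_3_231))) (.nd (.nd (.nd tA4_3_232 tA4_3_233) (.nd tA4_3_234 tA4_3_235)) (.nd (.nd tA4_3_236 tA4_3_237) (.nd tA4_3_238 tA4_3_239))))
noncomputable def uA4_3_0_15 : Tr := (.nd (.nd (.nd (.nd tA4_3_240 tA4_3_241) (.nd tA4_3_242 tA4_3_243)) (.nd (.nd tA4_3_244 tA4_3_245) (.nd tA4_3_246 tA4_3_247))) (.nd (.nd (.nd tA4_3_248 tA4_3_249) (.nd tA4_3_250 tA4_3_251)) (.nd (.nd tA4_3_252 tA4_3_253) (.nd tA4_3_254 tA4_3_255))))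
noncomputable def uA4_3_0_16 : Tr := (.nd (.nd (.nd (.nd tA4_3_256 tA4_3_257) (.nd tA4_3_258 tA4_3_259)) (.nd (.nd tA4_3_260 tA4_3_261) (.nd tA4_3_262 tA4_3_263))) (.nd (.nd (.nd tA4_3_264 tA4_3_265) (.nd tA4_3_266 tA4_3_267)) (.nd (.nd tA4_3_268 tA4_3_269) (.nd tA4_3_270 tA4_3_271))))
noncomputable def uA4_3_0_17 : Tr := (.nd (.nd (.nd (.nd tA4_3_272 tA4_3_273) (.nd tA4_3_274 tA4_3_275)) (.nd (.nd tA4_3_276 tA4_3_277) (.nd tA4_3_278 tA4_3_279))) (.nd (.nd (.nd tA4_3_280 tA4_3_281) (.nd tA4_3_282 tA4_3_283)) (.nd (.nd tA4_3_284 tA4_3_285) (.nd tA4_3_286 tA4_3_287))))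
noncomputable def uA4_3_0_18 : Tr := (.nd (.nd (.nd (.nd tA4_3_288 tA4_3_289) (.nd tA4_3_290 tA4_3_291)) (.nd (.nd tA4_3_292 tA4_3_293) (.nd tA4_3_294 tA4_3_295))) (.nd (.nd (.nd tA4_3_296 tA4_3_297) (.nd tA4_3_298 tA4_3_299)) (.nd (.nd tA4_3_300 tA4_3_301) (.nd tA4_3_302 tA4_3_303))))
noncomputable def uA4_3_0_19 : Tr := (.nd (.nd (.nd (.nd tA4_3_304 tA4_3_305) (.nd tA4_3_306 tA4_3_307)) (.nd (.nd tA4_3_308 tA4_3_309) (.nd tA4_3_310 tA4_3_311))) (.nd (.nd (.nd tA4_3_312 tA4_3_313) (.nd tA4_3_314 tA4_3_315)) (.nd (.nd tA4_3_316 tA4_3_317) (.nd tA4_3_318 tA4_3_319))))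
noncomputable def uA4_3_0_20 : Tr := (.nd (.nd (.nd (.nd tA4_3_320 tA4_3_321) (.nd tA4_3_322 tA4_3_323)) (.nd (.nd tA4_3_324 tA4_3_325) (.nd tA4_3_326 tA4_3_327))) (.nd (.nd (.nd tA4_3_328 tA4_3_329) (.nd tA4_3_330 tA4_3_331)) (.nd (.nd tA4_3_332 tA4_3_333) (.nd tA4_3_334 tA4_3_335))))
noncomputable def uA4_3_0_21 : Tr := (.nd (.nd (.nd (.nd tA4_3_336 tA4_3_337) (.nd tA4_3_338 tA4_3_339)) (.nd (.nd tA4_3_340 tA4_3_341) (.nd tA4_3_342 tA4_3_343))) (.nd (.nd (.nd tA4_3_344 tA4_3_345) (.nd tA4_3_346 tA4_3_347)) (.nd (.nd tA4_3_348 tA4_3_349) (.nd tA4_3_350 tA4_3_351))))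
noncomputable def uA4_3_0_22 : Tr := (.nd (.nd (.nd (.nd tA4_3_352 tA4_3_353) (.nd tA4_3_354 tA4_3_355)) (.nd (.nd tA4_3_356 tA4_3_357) (.nd tA4_3_358 tA4_3_359))) (.nd (.nd (.nd tA4_3_360 tA4_3_361) (.nd tA4_3_362 tA4_3_363)) (.nd (.nd tA4_3_364 tA4_3_365) (.nd tA4_3_366 tA4_3_367))))
noncomputable def uA4_3_0_23 : Tr := (.nd (.nd (.nd (.nd tA4_3_368 tA4_3_369) (.nd tA4_3_370 tA4_3_371)) (.nd (.nd tA4_3_372 tA4_3_373) (.nd tA4_3_374 tA4_3_375))) (.nd (.nd (.nd tA4_3_376 tA4_3_377) (.nd tA4_3_378 tA4_3_379)) (.nd (.nd tA4_3_380 tA4_3_381) (.nd tA4_3_382 tA4_3_383))))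
noncomputable def uA4_3_0_24 : Tr := (.nd (.nd (.nd (.nd tA4_3_384 tA4_3_385) (.nd tA4_3_386 tA4_3_387)) (.nd (.nd tA4_3_388 tA4_3_389) (.nd tA4_3_390 tA4_3_391))) (.nd (.nd (.nd tA4_3_392 tA4_3_393) (.nd tA4_3_394 tA4_3_395)) (.nd (.nd tA4_3_396 tA4_3_397) (.nd tA4_3_398 tA4_3_399))))
noncomputable def uA4_3_0_25 : Tr := (.nd (.nd (.nd (.nd tA4_3_400 tA4_3_401) (.nd tA4_3_402 tA4_3_403)) (.nd (.nd tA4_3_404 tA4_3_405) (.nd tA4_3_406 tA4_3_407))) (.nd (.nd (.nd tA4_3_408 tA4_3_409) (.nd tA4_3_410 tA4_3_411)) (.nd (.nd tA4_3_412 tA4_3_413) (.nd tA4_3_414 tA4_3_415))))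
noncomputable def uA4_3_0_26 : Tr := (.nd (.nd (.nd (.nd tA4_3_416 tA4_3_417) (.nd tA4_3_418 tA4_3_419)) (.nd (.nd tA4_3_420 tA4_3_421) (.nd tA4_3_422 tA4_3_423))) (.nd (.nd (.nd tA4_3_424 tA4_3_425) (.nd tA4_3_426 tA4_3_427)) (.nd (.nd tA4_3_428 tA4_3_429) (.nd tA4_3_430 tA4_3_431))))
noncomputable def uA4_3_0_27 : Tr := (.nd (.nd (.nd (.nd tA4_3_432 tA4_3_433) (.nd tA4_3_434 tA4_3_435)) (.nd (.nd tA4_3_436 tA4_3_437) (.nd tA4_3_438 tA4_3_439))) (.nd (.nd (.nd tA4_3_440 tA4_3_441) (.nd tA4_3_442 tA4_3_443)) (.nd (.nd tA4_3_444 tA4_3_445) (.nd tA4_3_446 tA4_3_447))))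
noncomputable def uA4_3_0_28 : Tr := (.nd (.nd (.nd (.nd tA4_3_448 tA4_3_449) (.nd tA4_3_450 tA4_3_451)) (.nd (.nd tA4_3_452 tA4_3_453) (.nd tA4_3_454 tA4_3_455))) (.nd (.nd (.nd tA4_3_456 tA4_3_457) (.nd tA4_3_458 tA4_3_459)) (.nd (.nd tA4_3_460 tA4_3_461) (.nd tA4_3_462 tA4_3_463))))
noncomputable def uA4_3_0_29 : Tr := (.nd (.nd (.nd (.nd tA4_3_464 tA4_3_465) (.nd tA4_3_466 tA4_3_467)) (.nd (.nd tA4_3_468 tA4_3_469) (.nd tA4_3_470 tA4_3_471))) (.nd (.nd (.nd tA4_3_472 tA4_3_473) (.nd tA4_3_474 tA4_3_475)) (.nd (.nd tA4_3_476 tA4_3_477) (.nd tA4_3_478 tA4_3_479))))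
noncomputable def uA4_3_0_30 : Tr := (.nd (.nd (.nd (.nd tA4_3_480 tA4_3_481) (.nd tA4_3_482 tA4_3_483)) (.nd (.nd tA4_3_484 tA4_3_485) (.nd tA4_3_486 tA4_3_487))) (.nd (.nd (.nd tA4_3_488 tA4_3_489) (.nd tA4_3_490 tA4_3_491)) (.nd (.nd tA4_3_492 tA4_3_493) (.nd tA4_3_494 tA4_3_495))))
noncomputable def uA4_3_0_31 : Tr := (.nd (.nd (.nd (.nd tA4_3_496 tA4_3_497) (.nd tA4_3_498 tA4_3_499)) (.nd (.nd tA4_3_500 tA4_3_501) (.nd tA4_3_502 tA4_3_503))) (.nd (.nd (.nd tA4_3_504 tA4_3_505) (.nd tA4_3_506 tA4_3_507)) (.nd (.nd tA4_3_508 tA4_3_509) (.nd tA4_3_510 tA4_3_511))))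
noncomputable def uA4_3_0_32 : Tr := (.nd (.nd (.nd (.nd tA4_3_512 tA4_3_513) (.nd tA4_3_514 tA4_3_515)) (.nd (.nd tA4_3_516 tA4_3_517) (.nd tA4_3_518 tA4_3_519))) (.nd (.nd (.nd tA4_3_520 tA4_3_521) (.nd tA4_3_522 tA4_3_523)) (.nd (.nd tA4_3_524 tA4_3_525) (.nd tA4_3_526 tA4_3_527))))
noncomputable def uA4_3_0_33 : Tr := (.nd (.nd (.nd (.nd tA4_3_528 tA4_3_529) (.nd tA4_3_530 tA4_3_531)) (.nd (.nd tA4_3_532 tA4_3_533) (.nd tA4_3_534 tA4_3_535))) (.nd (.nd (.nd tA4_3_536 tA4_3_537) (.nd tA4_3_538 tA4_3_539)) (.nd (.nd tA4_3_540 tA4_3_541) (.nd tA4_3_542 tA4_3_543))))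
noncomputable def uA4_3_0_34 : Tr := (.nd (.nd (.nd (.nd tA4_3_544 tA4_3_545) (.nd tA4_3_546 tA4_3_547)) (.nd (.nd tA4_3_548 tA4_3_549) (.nd tA4_3_550 tA4_3_551))) (.nd (.nd (.nd tA4_3_552 tA4_3_553) (.nd tA4_3_554 tA4_3_555)) (.nd (.nd tA4_3_556 tA4_3_557) (.nd tA4_3_558 tA4_3_559))))
noncomputable def uA4_3_0_35 : Tr := (.nd (.nd (.nd (.nd tA4_3_560 tA4_3_561) (.nd tA4_3_562 tA4_3_563)) (.nd (.nd tA4_3_564 tA4_3_565) (.nd tA4_3_566 tA4_3_567))) (.nd (.nd (.nd tA4_3_568 tA4_3_569) (.nd tA4_3_570 tA4_3_571)) (.nd (.nd tA4_3_572 tA4_3_573) (.nd tA4_3_574 tA4_3_575))))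
noncomputable def uA4_3_0_36 : Tr := (.nd (.nd (.nd (.nd tA4_3_576 tA4_3_577) (.nd tA4_3_578 tA4_3_579)) (.nd (.nd tA4_3_580 tA4_3_581) (.nd tA4_3_582 tA4_3_583))) (.nd (.nd (.nd tA4_3_584 tA4_3_585) (.nd tA4_3_586 tA4_3_587)) (.nd (.nd tA4_3_588 tA4_3_589) (.nd tA4_3_590 tA4_3_591))))
noncomputable def uA4_3_0_37 : Tr := (.nd (.nd (.nd (.nd tA4_3_592 tA4_3_593) (.nd tA4_3_594 tA4_3_595)) (.nd (.nd tA4_3_596 tA4_3_597) (.nd tA4_3_598 tA4_3_599))) (.nd (.nd (.nd tA4_3_600 tA4_3_601) (.nd tA4_3_602 tA4_3_603)) (.nd (.nd tA4_3_604 tA4_3_605) (.nd tA4_3_606 tA4_3_607))))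
noncomputable def uA4_3_0_38 : Tr := (.nd (.nd (.nd (.nd tA4_3_608 tA4_3_609) (.nd tA4_3_610 tA4_3_611)) (.nd (.nd tA4_3_612 tA4_3_613) (.nd tA4_3_614 tA4_3_615))) (.nd (.nd (.nd tA4_3_616 tA4_3_617) (.nd tA4_3_618 tA4_3_619)) (.nd (.nd tA4_3_620 tA4_3_621) (.nd tA4_3_622 tA4_3_623))))
noncomputable def uA4_3_0_39 : Tr := (.nd (.nd (.nd (.nd tA4_3_624 tA4_3_625) (.nd tA4_3_626 tA4_3_627)) (.nd (.nd tA4_3_628 tA4_3_629) (.nd tA4_3_630 tA4_3_631))) (.nd (.nd (.nd tA4_3_632 tA4_3_633) (.nd tA4_3_634 tA4_3_635)) (.nd (.nd tA4_3_636 tA4_3_637) (.nd tA4_3_638 tA4_3_639))))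
noncomputable def uA4_3_0_40 : Tr := (.nd (.nd (.nd (.nd tA4_3_640 tA4_3_641) (.nd tA4_3_642 tA4_3_643)) (.nd (.nd tA4_3_644 tA4_3_645) (.nd tA4_3_646 tA4_3_647))) (.nd (.nd (.nd tA4_3_648 tA4_3_649) (.nd tA4_3_650 tA4_3_651)) (.nd (.nd tA4_3_652 tA4_3_653) (.nd tA4_3_654 tA4_3_655))))
noncomputable def uA4_3_0_41 : Tr := (.nd (.nd (.nd (.nd tA4_3_656 tA4_3_657) (.nd tA4_3_658 tA4_3_659)) (.nd (.nd tA4_3_660 tA4_3_661) (.nd tA4_3_662 tA4_3_663))) (.nd (.nd (.nd tA4_3_664 tA4_3_665) (.nd tA4_3_666 tA4_3_667)) (.nd (.nd tA4_3_668 tA4_3_669) (.nd tA4_3_670 tA4_3_671))))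
noncomputable def uA4_3_0_42 : Tr := (.nd (.nd (.nd (.nd tA4_3_672 tA4_3_673) (.nd tA4_3_674 tA4_3_675)) (.nd (.nd tA4_3_676 tA4_3_677) (.nd tA4_3_678 tA4_3_679))) (.nd (.nd (.nd tA4_3_680 tA4_3_681) (.nd tA4_3_682 tA4_3_683)) (.nd (.nd tA4_3_684 tA4_3_685) (.nd tA4_3_686 tA4_3_687))))
noncomputable def uA4_3_0_43 : Tr := (.nd (.nd (.nd (.nd tA4_3_688 tA4_3_689) (.nd tA4_3_690 tA4_3_691)) (.nd (.nd tA4_3_692 tA4_3_693) (.nd tA4_3_694 tA4_3_695))) (.nd (.nd (.nd tA4_3_696 tA4_3_697) (.nd tA4_3_698 tA4_3_699)) (.nd (.nd tA4_3_700 tA4_3_701) (.nd tA4_3_702 tA4_3_703))))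
noncomputable def uA4_3_0_44 : Tr := (.nd (.nd (.nd (.nd tA4_3_704 tA4_3_705) (.nd tA4_3_706 tA4_3_707)) (.nd (.nd tA4_3_708 tA4_3_709) (.nd tA4_3_710 tA4_3_711))) (.nd (.nd (.nd tA4_3_712 tA4_3_713) (.nd tA4_3_714 tA4_3_715)) (.nd (.nd tA4_3_716 tA4_3_717) (.nd tA4_3_718 tA4_3_719))))
noncomputable def uA4_3_0_45 : Tr := (.nd (.nd (.nd (.nd tA4_3_720 tA4_3_721) (.nd tA4_3_722 tA4_3_723)) (.nd (.nd tA4_3_724 tA4_3_725) (.nd tA4_3_726 tA4_3_727))) (.nd (.nd (.nd tA4_3_728 tA4_3_729) (.nd tA4_3_730 tA4_3_731)) (.nd (.nd tA4_3_732 tA4_3_733) (.nd tA4_3_734 tA4_3_735))))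
noncomputable def uA4_3_0_46 : Tr := (.nd (.nd (.nd (.nd tA4_3_736 tA4_3_737) (.nd tA4_3_738 tA4_3_739)) (.nd (.nd tA4_3_740 tA4_3_741) (.nd tA4_3_742 tA4_3_743))) (.nd (.nd (.nd tA4_3_744 tA4_3_745) (.nd tA4_3_746 tA4_3_747)) (.nd (.nd tA4_3_748 tA4_3_749) (.nd tA4_3_750 tA4_3_751))))
noncomputable def uA4_3_0_47 : Tr := (.nd (.nd (.nd (.nd tA4_3_752 tA4_3_753) (.nd tA4_3_754 tA4_3_755)) (.nd (.nd tA4_3_756 tA4_3_757) (.nd tA4_3_758 tA4_3_759))) (.nd (.nd (.nd tA4_3_760 tA4_3_761) (.nd tA4_3_762 tA4_3_763)) (.nd (.nd tA4_3_764 tA4_3_765) (.nd tA4_3_766 tA4_3_767))))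
noncomputable def uA4_3_0_48 : Tr := (.nd (.nd (.nd (.nd tA4_3_768 tA4_3_769) (.nd tA4_3_770 tA4_3_771)) (.nd (.nd tA4_3_772 tA4_3_773) (.nd tA4_3_774 tA4_3_775))) (.nd (.nd (.nd tA4_3_776 tA4_3_777) (.nd tA4_3_778 tA4_3_779)) (.nd (.nd tA4_3_780 tA4_3_781) (.nd tA4_3_782 tA4_3_783))))
noncomputable def uA4_3_0_49 : Tr := (.nd (.nd (.nd (.nd tA4_3_784 tA4_3_785) (.nd tA4_3_786 tA4_3_787)) (.nd (.nd tA4_3_788 tA4_3_789) (.nd tA4_3_790 tA4_3_791))) (.nd (.nd (.nd tA4_3_792 tA4_3_793) (.nd tA4_3_794 tA4_3_795)) (.nd (.nd tA4_3_796 tA4_3_797) (.nd tA4_3_798 tA4_3_799))))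
noncomputable def uA4_3_0_50 : Tr := (.nd (.nd (.nd (.nd tA4_3_800 tA4_3_801) (.nd tA4_3_802 tA4_3_803)) (.nd (.nd tA4_3_804 tA4_3_805) (.nd tA4_3_806 tA4_3_807))) (.nd (.nd (.nd tA4_3_808 tA4_3_809) (.nd tA4_3_810 tA4_3_811)) (.nd (.nd tA4_3_812 tA4_3_813) (.nd tA4_3_814 tA4_3_815))))
noncomputable def uA4_3_0_51 : Tr := (.nd (.nd (.nd (.nd tA4_3_816 tA4_3_817) (.nd tA4_3_818 tA4_3_819)) (.nd (.nd tA4_3_820 tA4_3_821) (.nd tA4_3_822 tA4_3_823))) (.nd (.nd (.nd tA4_3_824 tA4_3_825) (.nd tA4_3_826 tA4_3_827)) (.nd (.nd tA4_3_828 tA4_3_829) (.nd tA4_3_830 tA4_3_831))))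
noncomputable def uA4_3_0_52 : Tr := (.nd (.nd (.nd (.nd tA4_3_832 tA4_3_833) (.nd tA4_3_834 tA4_3_835)) (.nd (.nd tA4_3_836 tA4_3_837) (.nd tA4_3_838 tA4_3_839))) (.nd (.nd (.nd tA4_3_840 tA4_3_841) (.nd tA4_3_842 tA4_3_843)) (.nd (.nd tA4_3_844 tA4_3_845) (.nd tA4_3_846 tA4_3_847))))
noncomputable def uA4_3_0_53 : Tr := (.nd (.nd (.nd (.nd tA4_3_848 tA4_3_849) (.nd tA4_3_850 tA4_3_851)) (.nd (.nd tA4_3_852 tA4_3_853) (.nd tA4_3_854 tA4_3_855))) (.nd (.nd (.nd tA4_3_856 tA4_3_857) (.nd tA4_3_858 tA4_3_859)) (.nd (.nd tA4_3_860 tA4_3_861) (.nd tA4_3_862 tA4_3_863))))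
noncomputable def uA4_3_0_54 : Tr := (.nd (.nd (.nd (.nd tA4_3_864 tA4_3_865) (.nd tA4_3_866 tA4_3_867)) (.nd (.nd tA4_3_868 tA4_3_869) (.nd tA4_3_870 tA4_3_871))) (.nd (.nd (.nd tA4_3_872 tA4_3_873) (.nd tA4_3_874 tA4_3_875)) (.nd (.nd tA4_3_876 tA4_3_877) (.nd tA4_3_878 tA4_3_879))))
noncomputable def uA4_3_0_55 : Tr := (.nd (.nd (.nd (.nd tA4_3_880 tA4_3_881) (.nd tA4_3_882 tA4_3_883)) (.nd (.nd tA4_3_884 tA4_3_885) (.nd tA4_3_886 tA4_3_887))) (.nd (.nd (.nd tA4_3_888 tA4_3_889) (.nd tA4_3_890 tA4_3_891)) (.nd (.nd tA4_3_892 tA4_3_893) (.nd tA4_3_894 tA4_3_895))))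
noncomputable def uA4_3_0_56 : Tr := (.nd (.nd (.nd (.nd tA4_3_896 tA4_3_897) (.nd tA4_3_898 tA4_3_899)) (.nd (.nd tA4_3_900 tA4_3_901) (.nd tA4_3_902 tA4_3_903))) (.nd (.nd (.nd tA4_3_904 tA4_3_905) (.nd tA4_3_906 tA4_3_907)) (.nd (.nd tA4_3_908 tA4_3_909) (.nd tA4_3_910 tA4_3_911))))
noncomputable def uA4_3_0_57 : Tr := (.nd (.nd (.nd (.nd tA4_3_912 tA4_3_913) (.nd tA4_3_914 tA4_3_915)) (.nd (.nd tA4_3_916 tA4_3_917) (.nd tA4_3_918 tA4_3_919))) (.nd (.nd (.nd tA4_3_920 tA4_3_921) (.nd tA4_3_922 tA4_3_923)) (.nd (.nd tA4_3_924 tA4_3_925) (.nd tA4_3_926 tA4_3_927))))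
noncomputable def uA4_3_0_58 : Tr := (.nd (.nd (.nd (.nd tA4_3_928 tA4_3_929) (.nd tA4_3_930 tA4_3_931)) (.nd (.nd tA4_3_932 tA4_3_933) (.nd tA4_3_934 tA4_3_935))) (.nd (.nd (.nd tA4_3_936 tA4_3_937) (.nd tA4_3_938 tA4_3_939)) (.nd (.nd tA4_3_940 tA4_3_941) (.nd tA4_3_942 tA4_3_943))))
noncomputable def uA4_3_0_59 : Tr := (.nd (.nd (.nd (.nd tA4_3_944 tA4_3_945) (.nd tA4_3_946 tA4_3_947)) (.nd (.nd tA4_3_948 tA4_3_949) (.nd tA4_3_950 tA4_3_951))) (.nd (.nd (.nd tA4_3_952 tA4_3_953) (.nd tA4_3_954 tA4_3_955)) (.nd (.nd tA4_3_956 tA4_3_957) (.nd tA4_3_958 tA4_3_959))))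
noncomputable def uA4_3_0_60 : Tr := (.nd (.nd (.nd (.nd tA4_3_960 tA4_3_961) (.nd tA4_3_962 tA4_3_963)) (.nd (.nd tA4_3_964 tA4_3_965) (.nd tA4_3_966 tA4_3_967))) (.nd (.nd (.nd tA4_3_968 tA4_3_969) (.nd tA4_3_970 tA4_3_971)) (.nd (.nd tA4_3_972 tA4_3_973) (.nd tA4_3_974 tA4_3_975))))
noncomputable def uA4_3_0_61 : Tr := (.nd (.nd (.nd (.nd tA4_3_976 tA4_3_977) (.nd tA4_3_978 tA4_3_979)) (.nd (.nd tA4_3_980 tA4_3_981) (.nd tA4_3_982 tA4_3_983))) (.nd (.nd (.nd tA4_3_984 tA4_3_985) (.nd tA4_3_986 tA4_3_987)) (.nd (.nd tA4_3_988 tA4_3_989) (.nd tA4_3_990 tA4_3_991))))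
noncomputable def uA4_3_0_62 : Tr := (.nd (.nd (.nd (.nd tA4_3_992 tA4_3_993) (.nd tA4_3_994 tA4_3_995)) (.nd (.nd tA4_3_996 tA4_3_997) (.nd tA4_3_998 tA4_3_999))) (.nd (.nd (.nd tA4_3_1000 tA4_3_1001) (.nd tA4_3_1002 tA4_3_1003)) (.nd (.nd tA4_3_1004 tA4_3_1005) (.nd tA4_3_1006 tA4_3_1007))))
noncomputable def uA4_3_0_63 : Tr := (.nd (.nd (.nd (.nd tA4_3_1008 tA4_3_1009) (.nd tA4_3_1010 tA4_3_1011)) (.nd (.nd tA4_3_1012 tA4_3_1013) (.nd tA4_3_1014 tA4_3_1015))) (.nd (.nd (.nd tA4_3_1016 tA4_3_1017) (.nd tA4_3_1018 tA4_3_1019)) (.nd (.nd tA4_3_1020 tA4_3_1021) (.nd tA4_3_1022 tA4_3_1023))))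
noncomputable def uA4_3_0_64 : Tr := (.nd (.nd (.nd (.nd tA4_3_1024 tA4_3_1025) (.nd tA4_3_1026 tA4_3_1027)) (.nd (.nd tA4_3_1028 tA4_3_1029) (.nd tA4_3_1030 tA4_3_1031))) (.nd (.nd (.nd tA4_3_1032 tA4_3_1033) (.nd tA4_3_1034 tA4_3_1035)) (.nd (.nd tA4_3_1036 tA4_3_1037) (.nd tA4_3_1038 tA4_3_1039))))
noncomputable def uA4_3_0_65 : Tr := (.nd (.nd (.nd (.nd tA4_3_1040 tA4_3_1041) (.nd tA4_3_1042 tA4_3_1043)) (.nd (.nd tA4_3_1044 tA4_3_1045) (.nd tA4_3_1046 tA4_3_1047))) (.nd (.nd (.nd tA4_3_1048 tA4_3_1049) (.nd tA4_3_1050 tA4_3_1051)) (.nd (.nd tA4_3_1052 tA4_3_1053) (.nd tA4_3_1054 tA4_3_1055))))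
noncomputable def uA4_3_0_66 : Tr := (.nd (.nd (.nd (.nd tA4_3_1056 tA4_3_1057) (.nd tA4_3_1058 tA4_3_1059)) (.nd (.nd tA4_3_1060 tA4_3_1061) (.nd tA4_3_1062 tA4_3_1063))) (.nd (.nd (.nd tA4_3_1064 tA4_3_1065) (.nd tA4_3_1066 tA4_3_1067)) (.nd (.nd tA4_3_1068 tA4_3_1069) (.nd tA4_3_1070 tA4_3_1071))))
noncomputable def uA4_3_0_67 : Tr := (.nd (.nd (.nd (.nd tA4_3_1072 tA4_3_1073) (.nd tA4_3_1074 tA4_3_1075)) (.nd (.nd tA4_3_1076 tA4_3_1077) (.nd tA4_3_1078 tA4_3_1079))) (.nd (.nd (.nd tA4_3_1080 tA4_3_1081) (.nd tA4_3_1082 tA4_3_1083)) (.nd (.nd tA4_3_1084 tA4_3_1085) (.nd tA4_3_1086 tA4_3_1087))))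
noncomputable def uA4_3_0_68 : Tr := (.nd (.nd (.nd (.nd tA4_3_1088 tA4_3_1089) (.nd tA4_3_1090 tA4_3_1091)) (.nd (.nd tA4_3_1092 tA4_3_1093) (.nd tA4_3_1094 tA4_3_1095))) (.nd (.nd (.nd tA4_3_1096 tA4_3_1097) (.nd tA4_3_1098 tA4_3_1099)) (.nd (.nd tA4_3_1100 tA4_3_1101) (.nd tA4_3_1102 tA4_3_1103))))
noncomputable def uA4_3_0_69 : Tr := (.nd (.nd (.nd (.nd tA4_3_1104 tA4_3_1105) (.nd tA4_3_1106 tA4_3_1107)) (.nd (.nd tA4_3_1108 tA4_3_1109) (.nd tA4_3_1110 tA4_3_1111))) (.nd (.nd (.nd tA4_3_1112 tA4_3_1113) (.nd tA4_3_1114 tA4_3_1115)) (.nd (.nd tA4_3_1116 tA4_3_1117) (.nd tA4_3_1118 tA4_3_1119))))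
noncomputable def uA4_3_0_70 : Tr := (.nd (.nd (.nd (.nd tA4_3_1120 tA4_3_1121) (.nd tA4_3_1122 tA4_3_1123)) (.nd (.nd tA4_3_1124 tA4_3_1125) (.nd tA4_3_1126 tA4_3_1127))) (.nd (.nd (.nd tA4_3_1128 tA4_3_1129) (.nd tA4_3_1130 tA4_3_1131)) (.nd (.nd tA4_3_1132 tA4_3_1133) (.nd tA4_3_1134 tA4_3_1135))))
noncomputable def uA4_3_0_71 : Tr := (.nd (.nd (.nd (.nd tA4_3_1136 tA4_3_1137) (.nd tA4_3_1138 tA4_3_1139)) (.nd (.nd tA4_3_1140 tA4_3_1141) (.nd tA4_3_1142 tA4_3_1143))) (.nd (.nd (.nd tA4_3_1144 tA4_3_1145) (.nd tA4_3_1146 tA4_3_1147)) (.nd (.nd tA4_3_1148 tA4_3_1149) (.nd tA4_3_1150 tA4_3_1151))))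
noncomputable def uA4_3_0_72 : Tr := (.nd (.nd (.nd (.nd tA4_3_1152 tA4_3_1153) (.nd tA4_3_1154 tA4_3_1155)) (.nd (.nd tA4_3_1156 tA4_3_1157) (.nd tA4_3_1158 tA4_3_1159))) (.nd (.nd (.nd tA4_3_1160 tA4_3_1161) (.nd tA4_3_1162 tA4_3_1163)) (.nd (.nd tA4_3_1164 tA4_3_1165) (.nd tA4_3_1166 tA4_3_1167))))
noncomputable def uA4_3_0_73 : Tr := (.nd (.nd (.nd (.nd tA4_3_1168 tA4_3_1169) (.nd tA4_3_1170 tA4_3_1171)) (.nd (.nd tA4_3_1172 tA4_3_1173) (.nd tA4_3_1174 tA4_3_1175))) (.nd (.nd (.nd tA4_3_1176 tA4_3_1177) (.nd tA4_3_1178 tA4_3_1179)) (.nd (.nd tA4_3_1180 tA4_3_1181) (.nd tA4_3_1182 tA4_3_1183))))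
noncomputable def uA4_3_0_74 : Tr := (.nd (.nd (.nd (.nd tA4_3_1184 tA4_3_1185) (.nd tA4_3_1186 tA4_3_1187)) (.nd (.nd tA4_3_1188 tA4_3_1189) (.nd tA4_3_1190 tA4_3_1191))) (.nd (.nd (.nd tA4_3_1192 tA4_3_1193) (.nd tA4_3_1194 tA4_3_1195)) (.nd (.nd tA4_3_1196 tA4_3_1197) (.nd tA4_3_1198 tA4_3_1199))))
noncomputable def uA4_3_0_75 : Tr := (.nd (.nd (.nd (.nd tA4_3_1200 tA4_3_1201) (.nd tA4_3_1202 tA4_3_1203)) (.nd (.nd tA4_3_1204 tA4_3_1205) (.nd tA4_3_1206 tA4_3_1207))) (.nd (.nd (.nd tA4_3_1208 tA4_3_1209) (.nd tA4_3_1210 tA4_3_1211)) (.nd (.nd tA4_3_1212 tA4_3_1213) (.nd tA4_3_1214 tA4_3_1215))))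
noncomputable def uA4_3_0_76 : Tr := (.nd (.nd (.nd (.nd tA4_3_1216 tA4_3_1217) (.nd tA4_3_1218 tA4_3_1219)) (.nd (.nd tA4_3_1220 tA4_3_1221) (.nd tA4_3_1222 tA4_3_1223))) (.nd (.nd (.nd tA4_3_1224 tA4_3_1225) (.nd tA4_3_1226 tA4_3_1227)) (.nd (.nd tA4_3_1228 tA4_3_1229) (.nd tA4_3_1230 tA4_3_1231))))
noncomputable def uA4_3_0_77 : Tr := (.nd (.nd (.nd (.nd tA4_3_1232 tA4_3_1233) (.nd tA4_3_1234 tA4_3_1235)) (.nd (.nd tA4_3_1236 tA4_3_1237) (.nd tA4_3_1238 tA4_3_1239))) (.nd (.nd (.nd tA4_3_1240 tA4_3_1241) (.nd tA4_3_1242 tA4_3_1243)) (.nd (.nd tA4_3_1244 tA4_3_1245) (.nd tA4_3_1246 tA4_3_1247))))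
noncomputable def uA4_3_0_78 : Tr := (.nd (.nd (.nd (.nd tA4_3_1248 tA4_3_1249) (.nd tA4_3_1250 tA4_3_1251)) (.nd (.nd tA4_3_1252 tA4_3_1253) (.nd tA4_3_1254 tA4_3_1255))) (.nd (.nd (.nd tA4_3_1256 tA4_3_1257) (.nd tA4_3_1258 tA4_3_1259)) (.nd (.nd tA4_3_1260 tA4_3_1261) (.nd tA4_3_1262 tA4_3_1263))))
noncomputable def uA4_3_0_79 : Tr := (.nd (.nd (.nd (.nd tA4_3_1264 tA4_3_1265) (.nd tA4_3_1266 tA4_3_1267)) (.nd (.nd tA4_3_1268 tA4_3_1269) (.nd tA4_3_1270 tA4_3_1271))) (.nd (.nd (.nd tA4_3_1272 tA4_3_1273) (.nd tA4_3_1274 tA4_3_1275)) (.nd (.nd tA4_3_1276 tA4_3_1277) (.nd tA4_3_1278 tA4_3_1279))))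
noncomputable def uA4_3_0_80 : Tr := (.nd (.nd (.nd (.nd tA4_3_1280 tA4_3_1281) (.nd tA4_3_1282 tA4_3_1283)) (.nd (.nd tA4_3_1284 tA4_3_1285) (.nd tA4_3_1286 tA4_3_1287))) (.nd (.nd (.nd tA4_3_1288 tA4_3_1289) (.nd tA4_3_1290 tA4_3_1291)) (.nd (.nd tA4_3_1292 tA4_3_1293) (.nd tA4_3_1294 tA4_3_1295))))
noncomputable def uA4_3_0_81 : Tr := (.nd (.nd (.nd (.nd tA4_3_1296 tA4_3_1297) (.nd tA4_3_1298 tA4_3_1299)) (.nd (.nd tA4_3_1300 tA4_3_1301) (.nd tA4_3_1302 tA4_3_1303))) (.nd (.nd (.nd tA4_3_1304 tA4_3_1305) (.nd tA4_3_1306 tA4_3_1307)) (.nd (.nd tA4_3_1308 tA4_3_1309) (.nd tA4_3_1310 tA4_3_1311))))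
noncomputable def uA4_3_0_82 : Tr := (.nd (.nd (.nd (.nd tA4_3_1312 tA4_3_1313) (.nd tA4_3_1314 tA4_3_1315)) (.nd (.nd tA4_3_1316 tA4_3_1317) (.nd tA4_3_1318 tA4_3_1319))) (.nd (.nd (.nd tA4_3_1320 tA4_3_1321) (.nd tA4_3_1322 tA4_3_1323)) (.nd (.nd tA4_3_1324 tA4_3_1325) (.nd tA4_3_1326 tA4_3_1327))))
noncomputable def uA4_3_0_83 : Tr := (.nd (.nd (.nd (.nd tA4_3_1328 tA4_3_1329) (.nd tA4_3_1330 tA4_3_1331)) (.nd (.nd tA4_3_1332 tA4_3_1333) (.nd tA4_3_1334 tA4_3_1335))) (.nd (.nd (.nd tA4_3_1336 tA4_3_1337) (.nd tA4_3_1338 tA4_3_1339)) (.nd (.nd tA4_3_1340 tA4_3_1341) (.nd tA4_3_1342 tA4_3_1343))))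
noncomputable def uA4_3_0_84 : Tr := (.nd (.nd (.nd (.nd tA4_3_1344 tA4_3_1345) (.nd tA4_3_1346 tA4_3_1347)) (.nd (.nd tA4_3_1348 tA4_3_1349) (.nd tA4_3_1350 tA4_3_1351))) (.nd (.nd (.nd tA4_3_1352 tA4_3_1353) (.nd tA4_3_1354 tA4_3_1355)) (.nd (.nd tA4_3_1356 tA4_3_1357) (.nd tA4_3_1358 tA4_3_1359))))
noncomputable def uA4_3_0_85 : Tr := (.nd (.nd (.nd (.nd tA4_3_1360 tA4_3_1361) (.nd tA4_3_1362 tA4_3_1363)) (.nd (.nd tA4_3_1364 tA4_3_1365) (.nd tA4_3_1366 tA4_3_1367))) (.nd (.nd (.nd tA4_3_1368 tA4_3_1369) (.nd tA4_3_1370 tA4_3_1371)) (.nd (.nd tA4_3_1372 tA4_3_1373) (.nd tA4_3_1374 tA4_3_1375))))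
noncomputable def uA4_3_0_86 : Tr := (.nd (.nd (.nd (.nd tA4_3_1376 tA4_3_1377) (.nd tA4_3_1378 tA4_3_1379)) (.nd (.nd tA4_3_1380 tA4_3_1381) (.nd tA4_3_1382 tA4_3_1383))) (.nd (.nd (.nd tA4_3_1384 tA4_3_1385) (.nd tA4_3_1386 tA4_3_1387)) (.nd (.nd tA4_3_1388 tA4_3_1389) (.nd tA4_3_1390 tA4_3_1391))))
noncomputable def uA4_3_0_87 : Tr := (.nd (.nd (.nd (.nd tA4_3_1392 tA4_3_1393) (.nd tA4_3_1394 tA4_3_1395)) (.nd (.nd tA4_3_1396 tA4_3_1397) (.nd tA4_3_1398 tA4_3_1399))) (.nd (.nd (.nd tA4_3_1400 tA4_3_1401) (.nd tA4_3_1402 tA4_3_1403)) (.nd (.nd tA4_3_1404 tA4_3_1405) (.nd tA4_3_1406 tA4_3_1407))))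
noncomputable def uA4_3_0_88 : Tr := (.nd (.nd (.nd (.nd tA4_3_1408 tA4_3_1409) (.nd tA4_3_1410 tA4_3_1411)) (.nd (.nd tA4_3_1412 tA4_3_1413) (.nd tA4_3_1414 tA4_3_1415))) (.nd (.nd (.nd tA4_3_1416 tA4_3_1417) (.nd tA4_3_1418 tA4_3_1419)) (.nd (.nd tA4_3_1420 tA4_3_1421) (.nd tA4_3_1422 tA4_3_1423))))
noncomputable def uA4_3_0_89 : Tr := (.nd (.nd (.nd (.nd tA4_3_1424 tA4_3_1425) (.nd tA4_3_1426 tA4_3_1427)) (.nd (.nd tA4_3_1428 tA4_3_1429) (.nd tA4_3_1430 tA4_3_1431))) (.nd (.nd (.nd tA4_3_1432 tA4_3_1433) (.nd tA4_3_1434 tA4_3_1435)) (.nd (.nd tA4_3_1436 tA4_3_1437) (.nd tA4_3_1438 tA4_3_1439))))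
noncomputable def uA4_3_0_90 : Tr := (.nd (.nd (.nd (.nd tA4_3_1440 tA4_3_1441) (.nd tA4_3_1442 tA4_3_1443)) (.nd (.nd tA4_3_1444 tA4_3_1445) (.nd tA4_3_1446 tA4_3_1447))) (.nd (.nd (.nd tA4_3_1448 tA4_3_1449) (.nd tA4_3_1450 tA4_3_1451)) (.nd (.nd tA4_3_1452 tA4_3_1453) (.nd tA4_3_1454 tA4_3_1455))))
noncomputable def uA4_3_0_91 : Tr := (.nd (.nd (.nd (.nd tA4_3_1456 tA4_3_1457) (.nd tA4_3_1458 tA4_3_1459)) (.nd (.nd tA4_3_1460 tA4_3_1461) (.nd tA4_3_1462 tA4_3_1463))) (.nd (.nd (.nd tA4_3_1464 tA4_3_1465) (.nd tA4_3_1466 tA4_3_1467)) (.nd (.nd tA4_3_1468 tA4_3_1469) (.nd tA4_3_1470 tA4_3_1471))))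
noncomputable def uA4_3_0_92 : Tr := (.nd (.nd (.nd (.nd tA4_3_1472 tA4_3_1473) (.nd tA4_3_1474 tA4_3_1475)) (.nd (.nd tA4_3_1476 tA4_3_1477) (.nd tA4_3_1478 tA4_3_1479))) (.nd (.nd (.nd tA4_3_1480 tA4_3_1481) (.nd tA4_3_1482 tA4_3_1483)) (.nd (.nd tA4_3_1484 tA4_3_1485) (.nd tA4_3_1486 tA4_3_1487))))
noncomputable def uA4_3_0_93 : Tr := (.nd (.nd (.nd (.nd tA4_3_1488 tA4_3_1489) (.nd tA4_3_1490 tA4_3_1491)) (.nd (.nd tA4_3_1492 tA4_3_1493) (.nd tA4_3_1494 tA4_3_1495))) (.nd (.nd (.nd tA4_3_1496 tA4_3_1497) (.nd tA4_3_1498 tA4_3_1499)) (.nd (.nd tA4_3_1500 tA4_3_1501) (.nd tA4_3_1502 tA4_3_1503))))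
noncomputable def uA4_3_0_94 : Tr := (.nd (.nd (.nd (.nd tA4_3_1504 tA4_3_1505) (.nd tA4_3_1506 tA4_3_1507)) (.nd (.nd tA4_3_1508 tA4_3_1509) (.nd tA4_3_1510 tA4_3_1511))) (.nd (.nd (.nd tA4_3_1512 tA4_3_1513) (.nd tA4_3_1514 tA4_3_1515)) (.nd (.nd tA4_3_1516 tA4_3_1517) (.nd tA4_3_1518 tA4_3_1519))))
noncomputable def uA4_3_0_95 : Tr := (.nd (.nd (.nd (.nd tA4_3_1520 tA4_3_1521) (.nd tA4_3_1522 tA4_3_1523)) (.nd (.nd tA4_3_1524 tA4_3_1525) (.nd tA4_3_1526 tA4_3_1527))) (.nd (.nd (.nd tA4_3_1528 tA4_3_1529) (.nd tA4_3_1530 tA4_3_1531)) (.nd (.nd tA4_3_1532 tA4_3_1533) (.nd tA4_3_1534 tA4_3_1535))))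
noncomputable def uA4_3_0_96 : Tr := (.nd (.nd (.nd (.nd tA4_3_1536 tA4_3_1537) (.nd tA4_3_1538 (.lf 0))) (.lf 0)) (.lf 0))
noncomputable def uA4_3_1_0 : Tr := (.nd (.nd (.nd (.nd uA4_3_0_0 uA4_3_0_1) (.nd uA4_3_0_2 uA4_3_0_3)) (.nd (.nd uA4_3_0_4 uA4_3_0_5) (.nd uA4_3_0_6 uA4_3_0_7))) (.nd (.nd (.nd uA4_3_0_8 uA4_3_0_9) (.nd uA4_3_0_10 uA4_3_0_11)) (.nd (.nd uA4_3_0_12 uA4_3_0_13) (.nd uA4_3_0_14 uA4_3_0_15))))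
noncomputable def uA4_3_1_1 : Tr := (.nd (.nd (.nd (.nd uA4_3_0_16 uA4_3_0_17) (.nd uA4_3_0_18 uA4_3_0_19)) (.nd (.nd uA4_3_0_20 uA4_3_0_21) (.nd uA4_3_0_22 uA4_3_0_23))) (.nd (.nd (.nd uA4_3_0_24 uA4_3_0_25) (.nd uA4_3_0_26 uA4_3_0_27)) (.nd (.nd uA4_3_0_28 uA4_3_0_29) (.nd uA4_3_0_30 uA4_3_0_31))))
noncomputable def uA4_3_1_2 : Tr := (.nd (.nd (.nd (.nd uA4_3_0_32 uA4_3_0_33) (.nd uA4_3_0_34 uA4_3_0_35)) (.nd (.nd uA4_3_0_36 uA4_3_0_37) (.nd uA4_3_0_38 uA4_3_0_39))) (.nd (.nd (.nd uA4_3_0_40 uA4_3_0_41) (.nd uA4_3_0_42 uA4_3_0_43)) (.nd (.nd uA4_3_0_44 uA4_3_0_45) (.nd uA4_3_0_46 uA4_3_0_47))))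
noncomputable def uA4_3_1_3 : Tr := (.nd (.nd (.nd (.nd uA4_3_0_48 uA4_3_0_49) (.nd uA4_3_0_50 uA4_3_0_51)) (.nd (.nd uA4_3_0_52 uA4_3_0_53) (.nd uA4_3_0_54 uA4_3_0_55))) (.nd (.nd (.nd uA4_3_0_56 uA4_3_0_57) (.nd uA4_3_0_58 uA4_3_0_59)) (.nd (.nd uA4_3_0_60 uA4_3_0_61) (.nd uA4_3_0_62 uA4_3_0_63))))
noncomputable def uA4_3_1_4 : Tr := (.nd (.nd (.nd (.nd uA4_3_0_64 uA4_3_0_65) (.nd uA4_3_0_66 uA4_3_0_67)) (.nd (.nd uA4_3_0_68 uA4_3_0_69) (.nd uA4_3_0_70 uA4_3_0_71))) (.nd (.nd (.nd uA4_3_0_72 uA4_3_0_73) (.nd uA4_3_0_74 uA4_3_0_75)) (.nd (.nd uA4_3_0_76 uA4_3_0_77) (.nd uA4_3_0_78 uA4_3_0_79))))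
noncomputable def uA4_3_1_5 : Tr := (.nd (.nd (.nd (.nd uA4_3_0_80 uA4_3_0_81) (.nd uA4_3_0_82 uA4_3_0_83)) (.nd (.nd uA4_3_0_84 uA4_3_0_85) (.nd uA4_3_0_86 uA4_3_0_87))) (.nd (.nd (.nd uA4_3_0_88 uA4_3_0_89) (.nd uA4_3_0_90 uA4_3_0_91)) (.nd (.nd uA4_3_0_92 uA4_3_0_93) (.nd uA4_3_0_94 uA4_3_0_95))))
noncomputable def uA4_3_1_6 : Tr := (.nd (.nd (.nd (.nd uA4_3_0_96 (.lf 0)) (.lf 0)) (.lf 0)) (.lf 0))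
noncomputable def tA4_3 : Tr := (.nd (.nd (.nd uA4_3_1_0 uA4_3_1_1) (.nd uA4_3_1_2 uA4_3_1_3)) (.nd (.nd uA4_3_1_4 uA4_3_1_5) (.nd uA4_3_1_6 (.lf 0))))

end Pool.Agent.MP_75ef89_co.Ex
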