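import Pool.Agent.MP_75ef89_co.Ex.C.Mk
import Pool.Agent.MP_75ef89_co.Ex.C.W0
import Pool.Agent.MP_75ef89_co.Ex.C.W1
import Pool.Agent.MP_75ef89_co.Ex.C.W2

/-! The weight tables pass their checks. -/

namespace Pool.Agent.MP_75ef89_co.Ex

theorem tab0 : TabChk 0 0 0 w0 wT0 gs0 := by
  decide +kernel
theorem okph0 : PhiChk 0 0 32 ph0 := by
  decide +kernel
theorem tab1 : TabChk 1 0 0 w1 wT1 gs1 := by
  decide +kernel
theorem tab1a : TabChk 1 0 15 w1 wT1 gs1a :=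
  tab1.of_gs (by decide +kernel)
theorem okph1 : PhiChk 1 0 32 ph1 := by
  decide +kernel
theorem tab2 : TabChk 2 0 0 w2 wT2 gs2 := by
  decide +kernel
theorem okph2 : PhiChk 2 0 32 ph2 := by
  decide +kernel

end Pool.Agent.MP_75ef89_co.Ex
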